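import Mathlib

/-!
# Flatness, flat dimension and weak global dimension over arbitrary rings

Mathlib's `Module.Flat` is for commutative rings.  Here is the equational form of flatness for left
modules over an arbitrary ring, the flat dimension (through flat resolutions) and the criterion for
weak global dimension at most one which is used later.
-/

set_option autoImplicit false

namespace Pool.Agent.TH33.WGL

universe u

/-- A left module `M` over a ring `R` is flat (equational criterion): every relation
`∑ i, r i • m i = 0` is a consequence of relations in `R`. -/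
def FlatMod (R : Type u) [Ring R] (M : Type u) [AddCommGroup M] [Module R M] : Prop :=
  ∀ (ι : Type) [Fintype ι] (r : ι → R) (m : ι → M), ∑ i, r i • m i = 0 →
    ∃ (κ : Type) (_ : Fintype κ) (a : ι → κ → R) (n : κ → M),
      (∀ i, m i = ∑ j, a i j • n j) ∧ ∀ j, ∑ i, r i * a i j = 0

/-- `M` has a flat resolution of length at most `n`. -/
def FlatDimLE (R : Type u) [Ring R] :
    ℕ → ∀ (M : Type u) [AddCommGroup M] [Module R M], Prop
  | 0, M, _, _ => FlatMod R M
  | n + 1, M, _, _ => ∃ (F : Type u) (_ : AddCommGroup F) (_ : Module R F) (p : F →ₗ[R] M),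
      FlatMod R F ∧ Function.Surjective p ∧ FlatDimLE R n (LinearMap.ker p)

/-- The weak global dimension of `R` is at most `n`: every left module has a flat resolution of
length at most `n`. -/
def WGlDimLE (R : Type u) [Ring R] (n : ℕ) : Prop :=
  ∀ (M : Type u) [AddCommGroup M] [Module R M], FlatDimLE R n M

/-- The weak global dimension of `R` is exactly one. -/
def WGlDimEqOne (R : Type u) [Ring R] : Prop := WGlDimLE R 1 ∧ ¬ WGlDimLE R 0

/-- The matrix condition: if a row `r` and a matrix `f` satisfy `r f = 0`, there is a square matrix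
`H` with `H f = 0` and `r H = r`. -/
def PF (R : Type u) [Ring R] : Prop :=
  ∀ (ι κ : Type) [Fintype ι] [Fintype κ] (r : ι → R) (f : ι → κ → R),
    (∀ j, ∑ i, r i * f i j = 0) →
    ∃ H : ι → ι → R, (∀ i j, ∑ s, H i s * f s j = 0) ∧ ∀ j, ∑ i, r i * H i j = r j

section
variable {R : Type u} [Ring R]

/-- flatness for finite systems of relations -/
theorem FlatMod.system {M : Type u} [AddCommGroup M] [Module R M] (hM : FlatMod R M) (p : ℕ) :
    ∀ (ι : Type) [Fintype ι] (c : Fin p → ι → R) (m : ι → M), (∀ s, ∑ i, c s i • m i = 0) →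
    ∃ (κ : Type) (_ : Fintype κ) (a : ι → κ → R) (n : κ → M),
      (∀ i, m i = ∑ j, a i j • n j) ∧ ∀ s j, ∑ i, c s i * a i j = 0 := by
  classical
  induction p with
  | zero =>
    intro ι _ c m _
    refine ⟨ι, inferInstance, fun i j => if i = j then 1 else 0, m, ?_, fun s => s.elim0⟩
    intro i
    simp
  | succ p ih =>
    intro ι _ c m h
    obtain ⟨κ, _, a, n, h1, h2⟩ := ih ι (fun s => c s.castSucc) m (fun s => h s.castSucc)
    have h3 : ∑ j, (∑ i, c (Fin.last p) i * a i j) • n j = 0 := by
      have := h (Fin.last p)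
      rw [← this]
      simp_rw [Finset.sum_smul, mul_smul]
      rw [Finset.sum_comm]
      refine Finset.sum_congr rfl fun i _ => ?_
      rw [← Finset.smul_sum, ← h1 i]
    obtain ⟨κ', _, b, n', h4, h5⟩ := hM κ _ n h3
    refine ⟨κ', inferInstance, fun i j => ∑ l, a i l * b l j, n', ?_, ?_⟩
    · intro i
      rw [h1 i]
      simp_rw [Finset.sum_smul, mul_smul]
      rw [Finset.sum_comm]
      refine Finset.sum_congr rfl fun l _ => ?_
      rw [← Finset.smul_sum, ← h4 l]
    · intro s j
      simp_rw [Finset.mul_sum, ← mul_assoc]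
      rw [Finset.sum_comm]
      simp_rw [← Finset.sum_mul]
      refine Fin.lastCases ?_ (fun s => ?_) s
      · exact h5 j
      · simp [h2 s]

/-- the kernel of a surjection from a flat module to a flat module is flat -/
theorem FlatMod.ker {X F : Type u} [AddCommGroup X] [Module R X] [AddCommGroup F] [Module R F]
    (hX : FlatMod R X) (hF : FlatMod R F) (q : X →ₗ[R] F) (hq : Function.Surjective q)
    (ι : Type) [Fintype ι] (r : ι → R) (k : ι → X) (hk : ∀ i, q (k i) = 0)
    (h : ∑ i, r i • k i = 0) :
    ∃ (κ : Type) (_ : Fintype κ) (a : ι → κ → R) (n : κ → X),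
      (∀ j, q (n j) = 0) ∧ (∀ i, k i = ∑ j, a i j • n j) ∧ ∀ j, ∑ i, r i * a i j = 0 := by
  classical
  obtain ⟨κ, _, a, x, h1, h2⟩ := hX ι r k h
  obtain ⟨e⟩ := Fintype.truncEquivFin ι
  have h3 : ∀ s : Fin (Fintype.card ι), ∑ j, a (e.symm s) j • q (x j) = 0 := by
    intro s
    have := congrArg q (h1 (e.symm s))
    rw [hk, map_sum] at this
    rw [this]
    exact Finset.sum_congr rfl fun j _ => (map_smul q _ _).symm
  obtain ⟨κ', _, b, y, h4, h5⟩ := hF.system _ κ (fun s => a (e.symm s)) (fun j => q (x j)) h3
  choose Y hY using fun l => hq (y l)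
  refine ⟨κ, inferInstance, a, fun j => x j - ∑ l, b j l • Y l, ?_, ?_, h2⟩
  · intro j
    rw [map_sub, map_sum]
    simp_rw [map_smul, hY]
    rw [← h4 j, sub_self]
  · intro i
    simp_rw [smul_sub, Finset.sum_sub_distrib]
    rw [← h1 i]
    have : ∑ j, a i j • ∑ l, b j l • Y l = 0 := by
      simp_rw [Finset.smul_sum, smul_smul]
      rw [Finset.sum_comm]
      simp_rw [← Finset.sum_smul]
      refine Finset.sum_eq_zero fun l _ => ?_
      have := h5 (e i) l
      simp only [Equiv.symm_apply_apply] at this
      rw [this, zero_smul]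
    rw [this, sub_zero]

/-- If the weak global dimension is at most one, then the matrix condition holds. -/
theorem PF_of_WGlDimLE (h : WGlDimLE R 1) : PF R := by
  classical
  intro ι κ _ _ r f hrf
  -- the free module of rows and the submodule generated by the rows of `f`
  let K : Submodule R (κ → R) := Submodule.span R (Set.range f)
  obtain ⟨F, _, _, p, hF, hp, hK⟩ := h ((κ → R) ⧸ K)
  -- the pull back
  let X : Submodule R (F × (κ → R)) :=
    LinearMap.ker ((p.comp (LinearMap.fst R F (κ → R))) -
      (K.mkQ.comp (LinearMap.snd R F (κ → R))))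
  have hXmem : ∀ v : F × (κ → R), v ∈ X ↔ p v.1 = K.mkQ v.2 := by
    intro v
    simp only [X, LinearMap.mem_ker, LinearMap.sub_apply, LinearMap.comp_apply,
      LinearMap.fst_apply, LinearMap.snd_apply, sub_eq_zero]
  -- lifts of the basis vectors
  have hlift : ∀ j : κ, ∃ v : F, p v = K.mkQ (Pi.single j 1) := fun j => hp _
  choose v hv using hlift
  have hX : FlatMod R X := by
    intro ι' _ r' x hx
    -- the component in the kernel of `p`
    let k : ι' → LinearMap.ker p := fun i => ⟨(x i).1.1 - ∑ j, (x i).1.2 j • v j, by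
      rw [LinearMap.mem_ker, map_sub, map_sum]
      simp_rw [map_smul, hv]
      rw [(hXmem _).1 (x i).2]
      have h1 : (x i).1.2 = ∑ j, (x i).1.2 j • (Pi.single j (1 : R) : κ → R) := by
        funext l
        simp [Finset.sum_apply, Pi.single_apply]
      have h2 : K.mkQ (x i).1.2 = ∑ j, (x i).1.2 j • K.mkQ (Pi.single j (1 : R) : κ → R) := by
        conv_lhs => rw [h1]
        rw [map_sum]
        exact Finset.sum_congr rfl fun j _ => map_smul _ _ _
      rw [h2, sub_self]⟩
    have hx1 : ∑ i, r' i • (x i).1.1 = 0 := by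
      have := congrArg (fun z : X => z.1.1) hx
      simpa [Submodule.coe_sum, Prod.fst_sum] using this
    have hx2 : ∀ j, ∑ i, r' i * (x i).1.2 j = 0 := by
      intro j
      have := congrArg (fun z : X => z.1.2 j) hx
      simpa [Submodule.coe_sum, Prod.snd_sum, Finset.sum_apply] using this
    have hk : ∑ i, r' i • k i = 0 := by
      apply Subtype.ext
      rw [Submodule.coe_sum]
      simp only [Submodule.coe_smul, k, ZeroMemClass.coe_zero]
      simp_rw [smul_sub, Finset.sum_sub_distrib, hx1, Finset.smul_sum, smul_smul]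
      rw [Finset.sum_comm]
      simp_rw [← Finset.sum_smul, hx2]
      simp
    obtain ⟨κ', _, a, n, h1, h2⟩ := hK ι' r' k hk
    refine ⟨κ ⊕ κ', inferInstance, fun i => Sum.elim (fun j => (x i).1.2 j) (fun l => a i l),
      Sum.elim (fun j => ⟨(v j, Pi.single j 1), (hXmem _).2 (hv j)⟩)
        (fun l => ⟨((n l : F), 0), (hXmem _).2 (by
          have := (n l).2
          rw [LinearMap.mem_ker] at this
          simp [this])⟩), ?_, ?_⟩
    · intro i
      apply Subtype.ext
      rw [Fintype.sum_sum_type]
      simp only [Sum.elim_inl, Sum.elim_inr, Submodule.coe_add, Submodule.coe_sum,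
        Submodule.coe_smul]
      apply Prod.ext
      · have h3 := congrArg (fun z : LinearMap.ker p => (z : F)) (h1 i)
        simp only [k, Submodule.coe_sum, Submodule.coe_smul] at h3
        simp only [Prod.fst_add, Prod.fst_sum, Prod.smul_fst]
        rw [← h3]
        abel
      · funext l
        simp [Prod.snd_sum, Finset.sum_apply, Pi.single_apply]
    · intro j
      cases j with
      | inl j => simpa using hx2 j
      | inr l => simpa using h2 l
  -- the projection to `F`
  let q : X →ₗ[R] F := (LinearMap.fst R F (κ → R)).comp X.subtype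
  have hq : Function.Surjective q := by
    intro y
    obtain ⟨w, hw⟩ := K.mkQ_surjective (p y)
    exact ⟨⟨(y, w), (hXmem _).2 hw.symm⟩, rfl⟩
  have hfK : ∀ i, f i ∈ K := fun i => Submodule.subset_span ⟨i, rfl⟩
  let kk : ι → X := fun i => ⟨(0, f i), (hXmem _).2 (by
    simp only [map_zero]
    exact ((Submodule.Quotient.mk_eq_zero K).2 (hfK i)).symm)⟩
  obtain ⟨κ', _, a, n, h1, h2, h3⟩ := hX.ker hF q hq ι r kk (fun i => rfl) (by
    apply Subtype.ext
    rw [Submodule.coe_sum]
    apply Prod.ext
    · simp [kk, Prod.fst_sum]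
    · funext j
      simpa [kk, Prod.snd_sum, Finset.sum_apply] using hrf j)
  have hn : ∀ j, (n j).1.2 ∈ K := by
    intro j
    have h4 := (hXmem _).1 (n j).2
    have h5 : (n j).1.1 = 0 := h1 j
    rw [h5, map_zero] at h4
    exact (Submodule.Quotient.mk_eq_zero K).1 h4.symm
  have hb : ∀ j, ∃ b : ι → R, ∑ s, b s • f s = (n j).1.2 := by
    intro j
    exact (Submodule.mem_span_range_iff_exists_fun R).1 (hn j)
  choose b hb using hb
  have hf : ∀ i l, f i l = ∑ s, (∑ j, a i j * b j s) * f s l := by
    intro i l
    have h4 := congrArg (fun z : X => z.1.2 l) (h2 i)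
    simp only [Submodule.coe_sum, Submodule.coe_smul, Prod.snd_sum, Prod.smul_snd,
      Finset.sum_apply, Pi.smul_apply, smul_eq_mul, kk] at h4
    rw [h4]
    simp_rw [Finset.sum_mul]
    rw [Finset.sum_comm]
    refine Finset.sum_congr rfl fun j _ => ?_
    rw [← hb j]
    simp [Finset.sum_apply, Finset.mul_sum, mul_assoc]
  refine ⟨fun i s => (if i = s then 1 else 0) - ∑ j, a i j * b j s, ?_, ?_⟩
  · intro i l
    simp_rw [sub_mul, Finset.sum_sub_distrib]
    rw [← hf i l]
    simp
  · intro s
    simp_rw [mul_sub, Finset.sum_sub_distrib, Finset.mul_sum, ← mul_assoc]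
    rw [Finset.sum_comm (s := Finset.univ) (t := Finset.univ)
      (f := fun i j => r i * a i j * b j s)]
    simp_rw [← Finset.sum_mul, h3]
    simp

/-- The matrix condition gives weak global dimension at most one. -/
theorem WGlDimLE_of_PF (h : PF R) : WGlDimLE R 1 := by
  classical
  intro M _ _
  refine ⟨M →₀ R, inferInstance, inferInstance, Finsupp.linearCombination R id, ?_, ?_, ?_⟩
  · -- a free module is flat
    intro ι _ r m hm
    let N : Finset M := Finset.univ.biUnion fun i => (m i).support
    refine ⟨Fin (Fintype.card N), inferInstance,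
      fun i j => m i ((Fintype.equivFin N).symm j),
      fun j => Finsupp.single (((Fintype.equivFin N).symm j : N) : M) 1, ?_, ?_⟩
    · intro i
      rw [Equiv.sum_comp (Fintype.equivFin N).symm
        (fun j : N => m i j • Finsupp.single (j : M) (1 : R))]
      rw [Finset.sum_coe_sort N (fun j => m i j • Finsupp.single j (1 : R))]
      ext x
      rw [Finset.sum_apply']
      simp only [Finsupp.smul_single, smul_eq_mul, mul_one, Finsupp.single_apply]
      rw [Finset.sum_ite_eq' N x]
      split_ifs with hx
      · rfl
      · by_contra h0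
        exact hx (Finset.mem_biUnion.2 ⟨i, Finset.mem_univ _, Finsupp.mem_support_iff.2 h0⟩)
    · intro j
      have := DFunLike.congr_fun hm (((Fintype.equivFin N).symm j : N) : M)
      rw [Finset.sum_apply'] at this
      simpa using this
  · intro m
    exact ⟨Finsupp.single m 1, by simp⟩
  · -- submodules of the free module are flat
    intro ι _ r k hk
    let N : Finset M := Finset.univ.biUnion fun i => (k i).1.support
    let E := Fintype.equivFin N
    obtain ⟨H, h1, h2⟩ := h ι (Fin (Fintype.card N)) r
      (fun i j => (k i).1 ((E.symm j : N) : M)) (by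
        intro j
        have := DFunLike.congr_fun (congrArg Subtype.val hk) ((E.symm j : N) : M)
        simp only [Submodule.coe_sum, Submodule.coe_smul] at this
        rw [Finset.sum_apply'] at this
        simpa using this)
    refine ⟨ι, inferInstance, fun i s => (if i = s then 1 else 0) - H i s, k, ?_, ?_⟩
    · intro i
      apply Subtype.ext
      rw [Submodule.coe_sum]
      simp only [Submodule.coe_smul]
      ext x
      rw [Finset.sum_apply']
      simp only [Finsupp.smul_apply, smul_eq_mul, sub_mul, Finset.sum_sub_distrib, ite_mul,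
        one_mul, zero_mul, Finset.sum_ite_eq, Finset.mem_univ, if_true]
      have h3 : ∑ s, H i s * (k s).1 x = 0 := by
        by_cases hx : x ∈ N
        · have := h1 i (E ⟨x, hx⟩)
          simpa using this
        · refine Finset.sum_eq_zero fun s _ => ?_
          have : (k s).1 x = 0 := by
            by_contra h0
            exact hx (Finset.mem_biUnion.2 ⟨s, Finset.mem_univ _, Finsupp.mem_support_iff.2 h0⟩)
          rw [this, mul_zero]
      rw [h3, sub_zero]
    · intro j
      simp_rw [mul_sub, Finset.sum_sub_distrib]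
      rw [h2 j]
      simp

/-- A ring with a non-zero-divisor (on the left) without left inverse is not of weak global
dimension zero. -/
theorem not_WGlDimLE_zero (x : R) (hx : ∀ a, x * a = 0 → a = 0)
    (hu : ∀ a, a * x ≠ 1) : ¬ WGlDimLE R 0 := by
  intro h
  let K : Submodule R R := Submodule.span R {x}
  have hM := h (R ⧸ K)
  obtain ⟨κ, _, a, n, h1, h2⟩ := hM Unit (fun _ => x) (fun _ => K.mkQ 1) (by
    simp only [Finset.univ_unique, Finset.sum_const, Finset.card_singleton, one_smul]
    rw [← map_smul]
    exact (Submodule.Quotient.mk_eq_zero K).2 (by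
      rw [smul_eq_mul, mul_one]
      exact Submodule.subset_span rfl))
  have h3 : ∀ j, a () j = 0 := fun j => hx _ (by simpa using h2 j)
  have h4 := h1 ()
  simp only [h3, zero_smul, Finset.sum_const_zero] at h4
  have h5 : (1 : R) ∈ K := (Submodule.Quotient.mk_eq_zero K).1 h4
  obtain ⟨b, hb⟩ := Submodule.mem_span_singleton.1 h5
  exact hu b hb

end

end Pool.Agent.TH33.WGL
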