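import Mathlib

/-!
# Von Neumann regular rings, matrices and Baer conditions
-/

set_option autoImplicit false

namespace Pool.Agent.TH33.WGL

open Matrix

universe u

/-- `A` is von Neumann regular. -/
def IsRegularRing (A : Type u) [Ring A] : Prop := ∀ a : A, ∃ b : A, a * b * a = a

/-- `R` is a Baer ring: the right annihilator of every subset is generated by an idempotent. -/
def IsBaerRing (R : Type u) [Ring R] : Prop :=
  ∀ S : Set R, ∃ e : R, e * e = e ∧ ∀ x : R, (∀ s ∈ S, s * x = 0) ↔ e * x = x

/-- The Baer condition for the module of rows indexed by `ι`. -/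
def BaerRow (A : Type u) [Ring A] (ι : Type) [Fintype ι] [DecidableEq ι] : Prop :=
  ∀ U : Set (ι → A), ∃ e : Matrix ι ι A, e * e = e ∧
    ∀ w : ι → A, (∀ u ∈ U, u ⬝ᵥ w = 0) ↔ e *ᵥ w = w

section
variable {A : Type u} [Ring A]

/-- finitely generated right ideals are generated by an idempotent -/
theorem IsRegularRing.row (hA : IsRegularRing A) {ι : Type} [Fintype ι] [DecidableEq ι]
    (p : ι → A) : ∃ v : ι → A, ∀ i, (∑ j, p j * v j) * p i = p i := by
  have key : ∀ s : Finset ι, ∃ v : ι → A, (∑ j, p j * v j) * (∑ j, p j * v j) = ∑ j, p j * v j ∧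
      ∀ i ∈ s, (∑ j, p j * v j) * p i = p i := by
    intro s
    induction s using Finset.induction_on with
    | empty => exact ⟨0, by simp, by simp⟩
    | insert k s hk ih =>
      obtain ⟨v, hg, hv⟩ := ih
      set g : A := ∑ j, p j * v j with hgdef
      obtain ⟨b, hb⟩ := hA ((1 - g) * p k)
      let v' : ι → A := fun j => v j - v j * p k * b * (1 - g) + if j = k then b * (1 - g) else 0
      have hv' : ∑ j, p j * v' j = g + (1 - g) * p k * b * (1 - g) := by
        have h1 : ∑ j, p j * (v j * p k * b * (1 - g)) = g * p k * b * (1 - g) := by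
          rw [hgdef]
          simp only [Finset.sum_mul, mul_assoc]
        have h2 : ∑ j, p j * (if j = k then b * (1 - g) else 0) = p k * (b * (1 - g)) := by
          simp
        have h3 : ∀ j, p j * v' j = p j * v j - p j * (v j * p k * b * (1 - g)) +
            p j * (if j = k then b * (1 - g) else 0) := by
          intro j
          simp only [v']
          rw [mul_add, mul_sub]
        rw [Finset.sum_congr rfl fun j _ => h3 j, Finset.sum_add_distrib, Finset.sum_sub_distrib,
          h1, h2, ← hgdef]
        noncomm_ring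
      have h0 : (1 - g) * g = 0 := by rw [sub_mul, one_mul, hg, sub_self]
      have h0' : g * (1 - g) = 0 := by rw [mul_sub, mul_one, hg, sub_self]
      refine ⟨v', ?_, ?_⟩
      · rw [hv']
        calc (g + (1 - g) * p k * b * (1 - g)) * (g + (1 - g) * p k * b * (1 - g))
            = g * g + (g * (1 - g)) * p k * b * (1 - g) + (1 - g) * p k * b * ((1 - g) * g) +
              ((1 - g) * p k * b * ((1 - g) * (1 - g) * p k) * b * (1 - g)) := by noncomm_ring
          _ = g + (1 - g) * p k * b * (1 - g) := by
              have h2 : (1 - g) * (1 - g) = 1 - g := by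
                rw [mul_sub, mul_one, h0, sub_zero]
              rw [h0, h0', h2, hg, hb]
              simp
      · intro i hi
        rw [hv', add_mul]
        rcases Finset.mem_insert.1 hi with rfl | hi
        · have : (1 - g) * p i * b * (1 - g) * p i = (1 - g) * p i := by
            rw [mul_assoc ((1 - g) * p i * b)]
            exact hb
          rw [this]
          noncomm_ring
        · have h1 : (1 - g) * p k * b * (1 - g) * p i = 0 := by
            have h5 : (1 - g) * p i = 0 := by rw [sub_mul, one_mul, hv i hi, sub_self]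
            rw [mul_assoc _ (1 - g) (p i), h5, mul_zero]
          rw [h1, add_zero, hv i hi]
  obtain ⟨v, -, hv⟩ := key Finset.univ
  exact ⟨v, fun i => hv i (Finset.mem_univ _)⟩

/-- matrices over a regular ring are regular -/
theorem IsRegularRing.matrix (hA : IsRegularRing A) {ι κ : Type} [Fintype ι] [DecidableEq ι]
    [Fintype κ] [DecidableEq κ] (Y : Matrix ι κ A) : ∃ Z : Matrix κ ι A, Y * Z * Y = Y := by
  have key : ∀ s : Finset ι, ∃ Z : Matrix κ ι A, ∀ i ∈ s, (Y - Y * Z * Y) i = 0 := by
    intro s
    induction s using Finset.induction_on with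
    | empty => exact ⟨0, by simp⟩
    | insert k s hk ih =>
      obtain ⟨Z, hZ⟩ := ih
      set X := Y - Y * Z * Y with hX
      obtain ⟨v, hv⟩ := hA.row (X k)
      let Z' : Matrix κ ι A := Matrix.of fun j i => if i = k then v j else 0
      refine ⟨Z + (1 - Z * Y) * Z' * (1 - Y * Z), ?_⟩
      have h1 : Y - Y * (Z + (1 - Z * Y) * Z' * (1 - Y * Z)) * Y = X - X * Z' * X := by
        rw [hX]
        simp only [Matrix.mul_sub, Matrix.sub_mul, Matrix.mul_add, Matrix.add_mul, Matrix.mul_assoc,
          Matrix.one_mul, Matrix.mul_one]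
        abel
      rw [h1]
      have h2 : ∀ i, (X * Z' * X) i = fun j => (∑ l, X i l * v l) * X k j := by
        intro i
        funext j
        rw [Matrix.mul_apply]
        simp only [Matrix.mul_apply, Z', Matrix.of_apply, mul_ite, mul_zero]
        rw [Finset.sum_eq_single k]
        · simp
        · intro b _ hb
          simp [hb]
        · simp
      intro i hi
      have h3 : (X - X * Z' * X) i = X i - (X * Z' * X) i := rfl
      rw [h3, h2]
      rcases Finset.mem_insert.1 hi with rfl | hi
      · funext j
        simp [hv j]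
      · funext j
        simp [hZ i hi]
  obtain ⟨Z, hZ⟩ := key Finset.univ
  refine ⟨Z, ?_⟩
  have : Y - Y * Z * Y = 0 := by
    funext i
    exact hZ i (Finset.mem_univ _)
  exact (sub_eq_zero.1 this).symm

/-- change of index type -/
theorem BaerRow.reindex {ι κ : Type} [Fintype ι] [DecidableEq ι] [Fintype κ] [DecidableEq κ]
    (E : ι ≃ κ) (h : BaerRow A ι) : BaerRow A κ := by
  intro U
  obtain ⟨e, he, h1⟩ := h ((fun u => u ∘ E) '' U)
  refine ⟨e.submatrix E.symm E.symm, ?_, ?_⟩
  · rw [Matrix.submatrix_mul_equiv, he]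
  · intro w
    have h2 := h1 (w ∘ E)
    have h3 : (∀ u ∈ (fun u => u ∘ E) '' U, u ⬝ᵥ (w ∘ E) = 0) ↔ ∀ u ∈ U, u ⬝ᵥ w = 0 := by
      simp only [Set.forall_mem_image]
      have : ∀ u : κ → A, (u ∘ E) ⬝ᵥ (w ∘ E) = u ⬝ᵥ w := by
        intro u
        simp only [dotProduct, Function.comp]
        exact Equiv.sum_comp E (fun i => u i * w i)
      simp only [this]
    rw [h3] at h2
    rw [h2]
    constructor
    · intro h4
      funext i
      have := congrFun h4 (E.symm i)
      simp only [Matrix.mulVec, dotProduct, Function.comp, Equiv.apply_symm_apply] at this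
      simp only [Matrix.mulVec, dotProduct, Matrix.submatrix_apply]
      rw [← Equiv.sum_comp E]
      simpa using this
    · intro h4
      funext i
      have := congrFun h4 (E i)
      simp only [Matrix.mulVec, dotProduct, Matrix.submatrix_apply] at this
      rw [← Equiv.sum_comp E] at this
      simpa [Matrix.mulVec, dotProduct] using this

theorem BaerRow_of_isBaer (h : ∀ n : ℕ, IsBaerRing (Matrix (Fin n) (Fin n) A))
    (ι : Type) [Fintype ι] [DecidableEq ι] : BaerRow A ι := by
  refine BaerRow.reindex (Fintype.equivFin ι).symm ?_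
  generalize Fintype.card ι = n
  intro U
  obtain ⟨e, he, h1⟩ := h n ((fun u => (Matrix.of fun _ j => u j : Matrix (Fin n) (Fin n) A)) '' U)
  refine ⟨e, he, fun w => ?_⟩
  have h2 := h1 (Matrix.of fun i _ => w i)
  rw [Set.forall_mem_image] at h2
  have h3 : (∀ ⦃u⦄, u ∈ U → (Matrix.of fun _ j => u j : Matrix (Fin n) (Fin n) A) *
      (Matrix.of fun i _ => w i : Matrix (Fin n) (Fin n) A) = 0) ↔ ∀ u ∈ U, u ⬝ᵥ w = 0 := by
    refine forall₂_congr fun u _ => ?_
    constructor
    · intro h4
      rcases n with _ | n
      · simp [dotProduct]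
      · exact congrFun (congrFun h4 0) 0
    · intro h4
      funext i j
      exact h4
  rw [h3] at h2
  rw [h2]
  constructor
  · intro h4
    funext i
    exact congrFun (congrFun h4 i) i
  · intro h4
    funext i j
    exact congrFun h4 i

theorem isBaer_of_BaerRow (n : ℕ) (h : BaerRow A (Fin n)) :
    IsBaerRing (Matrix (Fin n) (Fin n) A) := by
  intro S
  obtain ⟨e, he, h1⟩ := h {u | ∃ s ∈ S, ∃ i, u = s i}
  refine ⟨e, he, fun x => ?_⟩
  have h2 : (∀ s ∈ S, s * x = 0) ↔ ∀ j, ∀ u ∈ {u | ∃ s ∈ S, ∃ i, u = s i}, u ⬝ᵥ (x.col j) = 0 := by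
    constructor
    · rintro h3 j u ⟨s, hs, i, rfl⟩
      exact congrFun (congrFun (h3 s hs) i) j
    · intro h3 s hs
      funext i j
      exact h3 j _ ⟨s, hs, i, rfl⟩
  rw [h2]
  have h4 : (∀ j, e *ᵥ (x.col j) = x.col j) ↔ e * x = x := by
    constructor
    · intro h5
      funext i j
      exact congrFun (h5 j) i
    · intro h5 j
      funext i
      exact congrFun (congrFun h5 i) j
  rw [← h4]
  exact forall_congr' fun j => h1 _

end

end Pool.Agent.TH33.WGL
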