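import Mathlib
import Pool.Agent.TH33.WGL.Homol
import Pool.Agent.TH33.WGL.Reg

/-!
# Power series rings over regular rings all of whose matrix rings are Baer
-/

set_option autoImplicit false

namespace Pool.Agent.TH33.WGL

open Matrix PowerSeries

universe u

section
variable {A : Type u} [Ring A]

/-- the matrix of the coefficients of degree `m` -/
noncomputable def cm {ι κ : Type} (m : ℕ) (X : Matrix ι κ A⟦X⟧) : Matrix ι κ A :=
  Matrix.of fun i j => coeff m (X i j)

theorem cm_mul {ι κ l : Type} [Fintype κ] (m : ℕ) (X : Matrix ι κ A⟦X⟧)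
    (Y : Matrix κ l A⟦X⟧) :
    cm m (X * Y) = ∑ p ∈ Finset.HasAntidiagonal.antidiagonal m, cm p.1 X * cm p.2 Y := by
  ext i j
  rw [Matrix.sum_apply]
  simp only [cm, Matrix.of_apply, Matrix.mul_apply, map_sum, coeff_mul]
  exact Finset.sum_comm

theorem cm_ext {ι κ : Type} {X Y : Matrix ι κ A⟦X⟧} (h : ∀ m, cm m X = cm m Y) : X = Y := by
  funext i j
  ext m
  exact congrFun (congrFun (h m) i) j

theorem cm_one {ι : Type} [Fintype ι] [DecidableEq ι] (m : ℕ) :
    cm m (1 : Matrix ι ι A⟦X⟧) = if m = 0 then 1 else 0 := by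
  funext i j
  by_cases h : i = j
  · subst h
    by_cases hm : m = 0
    · simp [cm, hm]
    · simp [cm, hm, coeff_one]
  · by_cases hm : m = 0
    · simp [cm, hm, h]
    · simp [cm, hm, h]

/-- a square matrix of power series with constant term one is invertible -/
theorem exists_inv {ι : Type} [Fintype ι] [DecidableEq ι] (T : Matrix ι ι A⟦X⟧)
    (h : cm 0 T = 1) : ∃ T' : Matrix ι ι A⟦X⟧, T * T' = 1 ∧ T' * T = 1 := by
  let t : (Matrix ι ι A)⟦X⟧ := PowerSeries.mk fun m => cm m T
  have ht : ∃ t' : (Matrix ι ι A)⟦X⟧, t * t' = 1 ∧ t' * t = 1 := by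
    have hu : IsUnit t := by
      have h0 : constantCoeff t = 1 := by
        rw [← coeff_zero_eq_constantCoeff_apply, coeff_mk]
        exact h
      refine ⟨⟨t, MvPowerSeries.invOfUnit t 1, MvPowerSeries.mul_invOfUnit t 1 h0,
        MvPowerSeries.invOfUnit_mul t 1 h0⟩, rfl⟩
    exact ⟨_, hu.mul_val_inv, hu.val_inv_mul⟩
  obtain ⟨t', h1, h2⟩ := ht
  let T' : Matrix ι ι A⟦X⟧ := Matrix.of fun i j => PowerSeries.mk fun m => (coeff m t') i j
  have hT' : ∀ m, cm m T' = coeff m t' := by
    intro m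
    funext i j
    simp [cm, T']
  refine ⟨T', cm_ext fun m => ?_, cm_ext fun m => ?_⟩
  · rw [cm_mul, cm_one]
    have := congrArg (coeff m) h1
    rw [coeff_mul, coeff_one] at this
    rw [← this]
    refine Finset.sum_congr rfl fun p _ => ?_
    rw [hT', coeff_mk]
  · rw [cm_mul, cm_one]
    have := congrArg (coeff m) h2
    rw [coeff_mul, coeff_one] at this
    rw [← this]
    refine Finset.sum_congr rfl fun p _ => ?_
    rw [hT', coeff_mk]

/-- the rows killing the columns of `f` -/
def Ann {ι κ : Type} [Fintype ι] (f : ι → κ → A⟦X⟧) : Set (ι → A⟦X⟧) :=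
  {u | ∀ j, ∑ i, u i * f i j = 0}

/-- the truncations of the rows killing the columns of `f` -/
def TrAnn {ι κ : Type} [Fintype ι] (f : ι → κ → A⟦X⟧) (m : ℕ) : Set (Fin (m + 1) × ι → A) :=
  {v | ∃ u ∈ Ann f, v = fun p => coeff p.1.val (u p.2)}

/-- The leading coefficients of the rows killing `f` form the row space of an idempotent. -/
theorem leading {ι κ : Type} [Fintype ι] [DecidableEq ι]
    (hreg : IsRegularRing A)
    (hB : ∀ (l : Type) [Fintype l] [DecidableEq l], BaerRow A l) (f : ι → κ → A⟦X⟧) :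
    ∃ E : Matrix ι ι A, E * E = E ∧ (∀ u ∈ Ann f, (fun i => coeff 0 (u i)) ᵥ* E =
      fun i => coeff 0 (u i)) ∧
      ∃ V : Matrix ι ι A⟦X⟧, (∀ i, V i ∈ Ann f) ∧ cm 0 V = E := by
  classical
  choose e he hw using fun m => hB (Fin (m + 1) × ι) (TrAnn f m)
  -- columns which are killed
  have hcol : ∀ m, ∀ v ∈ TrAnn f m, v ᵥ* e m = 0 := by
    intro m v hv
    funext j
    have h1 : e m *ᵥ ((e m).col j) = (e m).col j := by
      have := congrArg (fun Z : Matrix _ _ A => Z.col j) (he m)
      exact this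
    exact (hw m _).2 h1 v hv
  -- the lifting
  have hlift : ∀ m (v : Fin (m + 1) × ι → A), v ᵥ* e m = 0 →
      ∃ v' : Fin (m + 2) × ι → A, v' ᵥ* e (m + 1) = 0 ∧
        ∀ p : Fin (m + 1) × ι, v' (p.1.castSucc, p.2) = v p := by
    intro m v hv
    let Y : Matrix (Fin (m + 2) × ι) (Fin (m + 1) × ι) A :=
      Matrix.of fun p q => (1 - e (m + 1)) p (q.1.castSucc, q.2)
    obtain ⟨Z, hZ⟩ := hreg.matrix Y
    have h1 : v ᵥ* (1 - Z * Y) = 0 := by
      funext j
      have h2 : ∀ u ∈ TrAnn f m, u ⬝ᵥ ((1 - Z * Y).col j) = 0 := by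
        rintro u ⟨u0, hu0, rfl⟩
        let u' : Fin (m + 2) × ι → A := fun p => coeff p.1.val (u0 p.2)
        have h3 : u' ᵥ* e (m + 1) = 0 := hcol (m + 1) u' ⟨u0, hu0, rfl⟩
        have h4 : u' ᵥ* Y = fun p : Fin (m + 1) × ι => coeff p.1.val (u0 p.2) := by
          funext p
          have h5 : u' ᵥ* (1 - e (m + 1)) = u' := by
            rw [Matrix.vecMul_sub, h3, Matrix.vecMul_one, sub_zero]
          exact congrFun h5 (p.1.castSucc, p.2)
        rw [← h4]
        have h6 : Y * (1 - Z * Y) = 0 := by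
          rw [Matrix.mul_sub, Matrix.mul_one, ← Matrix.mul_assoc, hZ, sub_self]
        have h7 : (u' ᵥ* Y) ᵥ* (1 - Z * Y) = 0 := by
          rw [Matrix.vecMul_vecMul, h6, Matrix.vecMul_zero]
        exact congrFun h7 j
      have h3 := (hw m _).1 h2
      change v ⬝ᵥ ((1 - Z * Y).col j) = 0
      rw [← h3, Matrix.dotProduct_mulVec, hv, zero_dotProduct]
    refine ⟨(v ᵥ* Z) ᵥ* (1 - e (m + 1)), ?_, ?_⟩
    · rw [Matrix.vecMul_vecMul, Matrix.sub_mul, Matrix.one_mul, he, sub_self, Matrix.vecMul_zero]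
    · intro p
      have h2 : (v ᵥ* Z) ᵥ* Y = v := by
        rw [Matrix.vecMul_sub, Matrix.vecMul_one, sub_eq_zero] at h1
        rw [Matrix.vecMul_vecMul]
        exact h1.symm
      exact congrFun h2 p
  -- every row killed by `e 0` lifts
  have hfull : ∀ v : Fin 1 × ι → A, v ᵥ* e 0 = 0 →
      ∃ u ∈ Ann f, ∀ i, coeff 0 (u i) = v (0, i) := by
    intro v hv
    choose! L hL1 hL2 using hlift
    let S : ∀ m : ℕ, {v : Fin (m + 1) × ι → A // v ᵥ* e m = 0} := fun m =>
      Nat.rec ⟨v, hv⟩ (fun m w => ⟨L m w.1, hL1 m w.1 w.2⟩) m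
    have hS : ∀ m (p : Fin (m + 1) × ι), (S (m + 1)).1 (p.1.castSucc, p.2) = (S m).1 p :=
      fun m p => hL2 m (S m).1 (S m).2 p
    let c : ℕ → ι → A := fun m i => (S m).1 (Fin.last m, i)
    have hc : ∀ m (k : Fin (m + 1)) (i : ι), (S m).1 (k, i) = c k.val i := by
      intro m
      induction m with
      | zero =>
        intro k i
        have : k = Fin.last 0 := Fin.ext (by have := k.2; simp)
        subst this
        rfl
      | succ m ih =>
        intro k i
        refine Fin.lastCases ?_ (fun k => ?_) k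
        · rfl
        · rw [hS m (k, i), ih k i]
          rfl
    refine ⟨fun i => PowerSeries.mk fun m => c m i, ?_, ?_⟩
    · intro j
      ext m
      rw [map_sum, map_zero]
      simp only [coeff_mul, coeff_mk]
      -- the column
      let w : Fin (m + 1) × ι → A := fun p => coeff (m - p.1.val) (f p.2 j)
      have h1 : ∀ u ∈ TrAnn f m, u ⬝ᵥ w = 0 := by
        rintro u ⟨u0, hu0, rfl⟩
        have h2 := congrArg (coeff m) (hu0 j)
        rw [map_sum, map_zero] at h2
        simp only [coeff_mul] at h2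
        rw [← h2]
        simp only [dotProduct, w]
        rw [Fintype.sum_prod_type_right]
        refine Finset.sum_congr rfl fun i _ => ?_
        rw [Finset.Nat.sum_antidiagonal_eq_sum_range_succ
          (fun a b => coeff a (u0 i) * coeff b (f i j)), Finset.sum_range]
      have h3 := (hw m _).1 h1
      have h4 : (S m).1 ⬝ᵥ w = 0 := by
        rw [← h3, Matrix.dotProduct_mulVec, (S m).2, zero_dotProduct]
      rw [← h4]
      simp only [dotProduct, w]
      rw [Fintype.sum_prod_type_right]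
      refine Finset.sum_congr rfl fun i _ => ?_
      rw [Finset.Nat.sum_antidiagonal_eq_sum_range_succ
          (fun a b => c a i * coeff b (f i j)), Finset.sum_range]
      refine Finset.sum_congr rfl fun k _ => ?_
      rw [hc m k i]
    · intro i
      rw [coeff_mk]
      rfl
  -- the idempotent
  let E : Matrix ι ι A := Matrix.of fun i j => (1 - e 0) (0, i) (0, j)
  have hE0 : ∀ (a b : Fin 1) (i j : ι), (1 - e 0) (a, i) (b, j) = E i j := by
    intro a b i j
    have ha : a = 0 := Subsingleton.elim _ _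
    have hb : b = 0 := Subsingleton.elim _ _
    subst ha hb
    rfl
  have hEE : (1 - e 0) * (1 - e 0) = 1 - e 0 := by
    rw [Matrix.mul_sub, Matrix.mul_one, Matrix.sub_mul, Matrix.one_mul, he, sub_self, sub_zero]
  refine ⟨E, ?_, ?_, ?_⟩
  · funext i j
    have := congrFun (congrFun hEE (0, i)) (0, j)
    rw [Matrix.mul_apply, Fintype.sum_prod_type] at this
    simpa [Matrix.mul_apply, hE0] using this
  · intro u hu
    have h1 := hcol 0 (fun p => coeff p.1.val (u p.2)) ⟨u, hu, rfl⟩
    have h2 : (fun p : Fin 1 × ι => coeff p.1.val (u p.2)) ᵥ* (1 - e 0) =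
        fun p : Fin 1 × ι => coeff p.1.val (u p.2) := by
      rw [Matrix.vecMul_sub, h1, Matrix.vecMul_one, sub_zero]
    funext i
    have h3 := congrFun h2 (0, i)
    rw [Matrix.vecMul, dotProduct, Fintype.sum_prod_type] at h3
    simpa [Matrix.vecMul, dotProduct, hE0] using h3
  · have h1 : ∀ i : ι, ∃ u ∈ Ann f, ∀ j, coeff 0 (u j) = E i j := by
      intro i
      refine hfull (fun p => (1 - e 0) (0, i) p) ?_
      have h2 : (1 - e 0) * e 0 = 0 := by
        rw [Matrix.sub_mul, Matrix.one_mul, he, sub_self]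
      exact congrFun h2 (0, i)
    choose V hV1 hV2 using h1
    refine ⟨Matrix.of V, hV1, ?_⟩
    funext i j
    exact hV2 i j

/-- regular rings all of whose matrix rings are Baer: the power series ring satisfies the matrix
condition -/
theorem PF_of_BaerRow (hreg : IsRegularRing A)
    (hB : ∀ (l : Type) [Fintype l] [DecidableEq l], BaerRow A l) : PF A⟦X⟧ := by
  classical
  intro ι κ _ _ r f hrf
  obtain ⟨E, hEE, hE, V, hV1, hV2⟩ := leading hreg hB f
  let F : Matrix ι κ A⟦X⟧ := Matrix.of f
  have hVF : V * F = 0 := by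
    funext i j
    exact hV1 i j
  let E' : Matrix ι ι A⟦X⟧ := Matrix.of fun i j => C (E i j)
  have hE'0 : cm 0 E' = E := by
    funext i j
    simp [cm, E']
  have hE'm : ∀ m, m ≠ 0 → cm m E' = 0 := by
    intro m hm
    funext i j
    simp [cm, E', coeff_C, hm]
  have hE'E' : E' * E' = E' := by
    apply cm_ext
    intro m
    rw [cm_mul]
    rcases Nat.eq_zero_or_pos m with rfl | hm
    · simp [hE'0, hEE]
    · rw [hE'm m hm.ne']
      refine Finset.sum_eq_zero fun p hp => ?_
      rw [Finset.HasAntidiagonal.mem_antidiagonal] at hp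
      by_cases h1 : p.1 = 0
      · rw [hE'm p.2 (by omega), Matrix.mul_zero]
      · rw [hE'm p.1 h1, Matrix.zero_mul]
  set v : Matrix ι ι A⟦X⟧ := E' * V with hv
  have hv0 : cm 0 v = E := by
    rw [hv, cm_mul]
    simp [hE'0, hV2, hEE]
  have hE'v : E' * v = v := by
    rw [hv, ← Matrix.mul_assoc, hE'E']
  have hvF : v * F = 0 := by
    rw [hv, Matrix.mul_assoc, hVF, Matrix.mul_zero]
  let T : Matrix ι ι A⟦X⟧ := v + (1 - E')
  have hT0 : cm 0 T = 1 := by
    have h1 : cm 0 T = cm 0 v + (cm 0 (1 : Matrix ι ι A⟦X⟧) - cm 0 E') := by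
      funext i j
      simp [cm, T]
    rw [h1, hv0, hE'0, cm_one]
    simp
  obtain ⟨T', hT1, hT2⟩ := exists_inv T hT0
  have hET : E' * T = v := by
    simp only [T]
    rw [Matrix.mul_add, hE'v, Matrix.mul_sub, Matrix.mul_one, hE'E', sub_self, add_zero]
  have hvT' : v * T' = E' := by
    rw [← hET, Matrix.mul_assoc, hT1, Matrix.mul_one]
  have hT'0 : cm 0 T' = 1 := by
    have := congrArg (cm 0) hT1
    rw [cm_mul, cm_one] at this
    simpa [hT0] using this
  let H : Matrix ι ι A⟦X⟧ := T' * v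
  have hH0 : cm 0 H = E := by
    simp only [H]
    rw [cm_mul]
    simp [hT'0, hv0]
  have hHF : H * F = 0 := by
    simp only [H]
    rw [Matrix.mul_assoc, hvF, Matrix.mul_zero]
  have hHH : H * H = H := by
    simp only [H]
    rw [Matrix.mul_assoc, ← Matrix.mul_assoc v, hvT', hE'v]
  refine ⟨H, fun i j => congrFun (congrFun hHF i) j, ?_⟩
  -- the row
  have hr : r ∈ Ann f := hrf
  let d : ι → A⟦X⟧ := r - r ᵥ* H
  have hdf : d ᵥ* F = 0 := by
    have h1 : r ᵥ* F = 0 := by
      funext j
      exact hrf j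
    simp only [d]
    rw [Matrix.sub_vecMul, h1, Matrix.vecMul_vecMul, hHF, Matrix.vecMul_zero, sub_zero]
  have hdH : d ᵥ* H = 0 := by
    simp only [d]
    rw [Matrix.sub_vecMul, Matrix.vecMul_vecMul, hHH, sub_self]
  have key : ∀ m, ∀ i, coeff m (d i) = 0 := by
    intro m
    induction m using Nat.strong_induction_on with
    | _ m ih =>
    let d' : ι → A⟦X⟧ := fun i => PowerSeries.mk fun k => coeff (k + m) (d i)
    have hd' : ∀ i, d i = X ^ m * d' i := by
      intro i
      ext k
      rw [coeff_X_pow_mul']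
      split_ifs with hk
      · simp only [d', coeff_mk]
        rw [Nat.sub_add_cancel hk]
      · exact ih k (by omega) i
    have hcancel : ∀ (l : Type) (G : Matrix ι l A⟦X⟧), d ᵥ* G = 0 → d' ᵥ* G = 0 := by
      intro l G hG
      funext j
      have h1 := congrFun hG j
      simp only [Matrix.vecMul, dotProduct, Pi.zero_apply] at h1 ⊢
      simp_rw [hd', mul_assoc] at h1
      rw [← Finset.mul_sum] at h1
      ext k
      have h2 := congrArg (coeff (k + m)) h1
      rw [coeff_X_pow_mul'] at h2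
      simpa using h2
    have h1 := hcancel _ F hdf
    have h2 := hcancel _ H hdH
    have h3 : d' ∈ Ann f := fun j => congrFun h1 j
    have h4 := hE d' h3
    have h5 : (fun i => coeff 0 (d' i)) ᵥ* E = 0 := by
      funext j
      have h6 := congrArg (coeff 0) (congrFun h2 j)
      simp only [Matrix.vecMul, dotProduct, Pi.zero_apply, map_sum, map_zero] at h6 ⊢
      rw [← h6]
      refine Finset.sum_congr rfl fun i _ => ?_
      rw [coeff_mul]
      simp [← hH0, cm]
    intro i
    have h6 : coeff 0 (d' i) = 0 := by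
      rw [h5] at h4
      exact (congrFun h4 i).symm
    simpa [d'] using h6
  intro j
  have h1 : d j = 0 := by
    ext m
    rw [key m j, map_zero]
  have h2 : r j - (r ᵥ* H) j = 0 := h1
  exact (sub_eq_zero.1 h2).symm

end

end Pool.Agent.TH33.WGL
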