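import Mathlib
import Pool.Agent.TH33.WGL.PS

/-!
# Necessary conditions: regularity and countable separation
-/

set_option autoImplicit false

namespace Pool.Agent.TH33.WGL

open Matrix PowerSeries

universe u

/-- Countable separation over `A` (for all matrix sizes): if the rows `t 0, t 1, …` kill the columns
`z 0, z 1, …`, there is a square matrix `c` killed by all the rows and fixing all the columns. -/
def CountSep (A : Type u) [Ring A] : Prop :=
  ∀ (n : Type) [Fintype n] [DecidableEq n] (t z : ℕ → n → A), (∀ i j, t i ⬝ᵥ z j = 0) →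
    ∃ c : Matrix n n A, (∀ i, t i ᵥ* c = 0) ∧ ∀ j, c *ᵥ z j = z j

section
variable {A : Type u} [Ring A]

theorem regular_of_PF (h : PF A⟦X⟧) : IsRegularRing A := by
  intro a
  obtain ⟨H, h1, h2⟩ := h (Fin 2) Unit ![C a, X] (fun i _ => ![X, -C a] i) (by
    intro _
    rw [Fin.sum_univ_two]
    simp only [Matrix.cons_val_zero, Matrix.cons_val_one, mul_neg]
    rw [X_mul, add_neg_cancel])
  have e1 := h1 0 ()
  have e2 := h2 0
  rw [Fin.sum_univ_two] at e1 e2
  simp only [Matrix.cons_val_zero, Matrix.cons_val_one] at e1 e2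
  have e3 := congrArg (coeff 1) e1
  have e4 := congrArg (coeff 0) e2
  rw [map_add, mul_neg, map_neg, coeff_mul_C, map_zero] at e3
  rw [map_add, coeff_C_mul] at e4
  have e5 : coeff 1 (H 0 0 * X) = coeff 0 (H 0 0) := by
    have := coeff_succ_mul_X 0 (H 0 0)
    simpa using this
  have e6 : coeff 0 (X * H 1 0) = 0 := by simp
  rw [e5] at e3
  rw [e6, add_zero, coeff_zero_C] at e4
  refine ⟨coeff 1 (H 0 1), ?_⟩
  have e7 : coeff 0 (H 0 0) = coeff 1 (H 0 1) * a := by
    rw [← sub_eq_zero, sub_eq_add_neg]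
    exact e3
  rw [mul_assoc, ← e7]
  exact e4

/-- the matrix form of the matrix condition -/
theorem PF.mat {R : Type u} [Ring R] (h : PF R) {n : Type} [Fintype n] [DecidableEq n]
    (f g : Matrix n n R) (hfg : f * g = 0) : ∃ H : Matrix n n R, H * g = 0 ∧ f * H = f := by
  have key : ∀ s : Finset n, ∃ H : Matrix n n R, H * g = 0 ∧ ∀ i ∈ s, (f * H) i = f i := by
    intro s
    induction s using Finset.induction_on with
    | empty => exact ⟨0, by simp, by simp⟩
    | insert k s _ ih =>
      obtain ⟨H, h1, h2⟩ := ih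
      have h3 : (f - f * H) * g = 0 := by
        rw [Matrix.sub_mul, Matrix.mul_assoc, h1, Matrix.mul_zero, hfg, sub_zero]
      obtain ⟨H2, h4, h5⟩ := h n n ((f - f * H) k) g (fun j => congrFun (congrFun h3 k) j)
      let H3 : Matrix n n R := Matrix.of H2
      have h6 : H3 * g = 0 := by
        funext i j
        exact h4 i j
      have h7 : ((f - f * H) * H3) k = (f - f * H) k := by
        funext j
        exact h5 j
      refine ⟨H + H3 - H * H3, ?_, ?_⟩
      · rw [Matrix.sub_mul, Matrix.add_mul, Matrix.mul_assoc, h1, h6, Matrix.mul_zero]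
        simp
      · have h8 : f * (H + H3 - H * H3) = f * H + (f - f * H) * H3 := by
          simp only [Matrix.mul_add, Matrix.mul_sub, Matrix.sub_mul, Matrix.mul_assoc]
          abel
        intro i hi
        rw [h8]
        have h9 : (f * H + (f - f * H) * H3) i = (f * H) i + ((f - f * H) * H3) i := rfl
        rw [h9]
        rcases Finset.mem_insert.1 hi with rfl | hi
        · rw [h7]
          have : (f - f * H) i = f i - (f * H) i := rfl
          rw [this]
          abel
        · have h10 : (f - f * H) i = 0 := by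
            have : (f - f * H) i = f i - (f * H) i := rfl
            rw [this, h2 i hi, sub_self]
          have h11 : ((f - f * H) * H3) i = 0 := by
            have h12 : ((f - f * H) * H3) i = ((f - f * H) i) ᵥ* H3 := rfl
            rw [h12, h10, Matrix.zero_vecMul]
          rw [h11, add_zero, h2 i hi]
  obtain ⟨H, h1, h2⟩ := key Finset.univ
  exact ⟨H, h1, funext fun i => h2 i (Finset.mem_univ _)⟩

/-- a chain of idempotents for a sequence of rows -/
theorem row_chain (hA : IsRegularRing A) {n : Type} [Fintype n] [DecidableEq n] (t : ℕ → n → A) :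
    ∃ E : ℕ → Matrix n n A, E 0 = 0 ∧ (∀ m, E m * E m = E m) ∧ (∀ m, E m * E (m + 1) = E m) ∧
      (∀ m, E (m + 1) * E m = E m) ∧ (∀ m, t m ᵥ* E (m + 1) = t m) ∧
      ∀ w, (∀ i, t i ⬝ᵥ w = 0) → ∀ m, E m *ᵥ w = 0 := by
  have step : ∀ (m : ℕ) (E : Matrix n n A), E * E = E →
      (∀ w, (∀ i, t i ⬝ᵥ w = 0) → E *ᵥ w = 0) →
      ∃ E' : Matrix n n A, E' * E' = E' ∧ (∀ w, (∀ i, t i ⬝ᵥ w = 0) → E' *ᵥ w = 0) ∧
        E * E' = E ∧ E' * E = E ∧ t m ᵥ* E' = t m := by
    intro m E hE hw
    let Y : Matrix Unit n A := Matrix.of fun _ => t m ᵥ* (1 - E)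
    obtain ⟨Z, hZ⟩ := hA.matrix Y
    have hYE : Y * E = 0 := by
      funext i
      change (t m ᵥ* (1 - E)) ᵥ* E = 0
      rw [Matrix.vecMul_vecMul, Matrix.sub_mul, Matrix.one_mul, hE, sub_self, Matrix.vecMul_zero]
    let g : Matrix n n A := Z * Y
    have hgg : g * g = g := by
      simp only [g]
      rw [Matrix.mul_assoc, ← Matrix.mul_assoc Y, hZ]
    have hgE : g * E = 0 := by
      simp only [g]
      rw [Matrix.mul_assoc, hYE, Matrix.mul_zero]
    have hYg : (t m ᵥ* (1 - E)) ᵥ* g = t m ᵥ* (1 - E) := by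
      have : Y * g = Y := by
        simp only [g]
        rw [← Matrix.mul_assoc, hZ]
      exact congrFun this ()
    refine ⟨E + (1 - E) * g, ?_, ?_, ?_, ?_, ?_⟩
    · calc (E + (1 - E) * g) * (E + (1 - E) * g)
          = E * E + (E - E * E) * g + (1 - E) * (g * E) +
            (1 - E) * (g * g - g * E * g) := by noncomm_ring
        _ = E + (1 - E) * g := by rw [hE, hgE, hgg]; noncomm_ring
    · intro w hw0
      have h1 : Y *ᵥ w = 0 := by
        funext i
        change (t m ᵥ* (1 - E)) ⬝ᵥ w = 0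
        rw [← Matrix.dotProduct_mulVec, Matrix.sub_mulVec, Matrix.one_mulVec, hw w hw0, sub_zero,
          hw0 m]
      simp only [g]
      rw [Matrix.add_mulVec, hw w hw0, ← Matrix.mulVec_mulVec, ← Matrix.mulVec_mulVec, h1,
        Matrix.mulVec_zero, Matrix.mulVec_zero, add_zero]
    · calc E * (E + (1 - E) * g) = E * E + (E - E * E) * g := by noncomm_ring
        _ = E := by rw [hE, sub_self, Matrix.zero_mul, add_zero]
    · calc (E + (1 - E) * g) * E = E * E + (1 - E) * (g * E) := by noncomm_ring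
        _ = E := by rw [hE, hgE, Matrix.mul_zero, add_zero]
    · rw [Matrix.vecMul_add, ← Matrix.vecMul_vecMul, hYg, ← Matrix.vecMul_add]
      have : E + (1 - E) = 1 := by abel
      rw [this, Matrix.vecMul_one]
  choose! S hS1 hS2 hS3 hS4 hS5 using step
  let E : ∀ m : ℕ, {E : Matrix n n A // E * E = E ∧ ∀ w, (∀ i, t i ⬝ᵥ w = 0) → E *ᵥ w = 0} :=
    fun m => Nat.rec ⟨0, by simp, by simp⟩
      (fun m E => ⟨S m E.1, hS1 m E.1 E.2.1 E.2.2, hS2 m E.1 E.2.1 E.2.2⟩) m
  exact ⟨fun m => (E m).1, rfl, fun m => (E m).2.1,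
    fun m => hS3 m (E m).1 (E m).2.1 (E m).2.2, fun m => hS4 m (E m).1 (E m).2.1 (E m).2.2,
    fun m => hS5 m (E m).1 (E m).2.1 (E m).2.2, fun w hw m => (E m).2.2 w hw⟩

/-- a chain of idempotents for a sequence of columns -/
theorem col_chain (hA : IsRegularRing A) {n : Type} [Fintype n] [DecidableEq n] (z : ℕ → n → A) :
    ∃ E : ℕ → Matrix n n A, E 0 = 0 ∧ (∀ m, E m * E m = E m) ∧ (∀ m, E m * E (m + 1) = E m) ∧
      (∀ m, E (m + 1) * E m = E m) ∧ (∀ m, E (m + 1) *ᵥ z m = z m) ∧
      ∀ u, (∀ i, u ⬝ᵥ z i = 0) → ∀ m, u ᵥ* E m = 0 := by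
  have step : ∀ (m : ℕ) (E : Matrix n n A), E * E = E →
      (∀ u, (∀ i, u ⬝ᵥ z i = 0) → u ᵥ* E = 0) →
      ∃ E' : Matrix n n A, E' * E' = E' ∧ (∀ u, (∀ i, u ⬝ᵥ z i = 0) → u ᵥ* E' = 0) ∧
        E * E' = E ∧ E' * E = E ∧ E' *ᵥ z m = z m := by
    intro m E hE hw
    let Y : Matrix n Unit A := Matrix.of fun i _ => ((1 - E) *ᵥ z m) i
    obtain ⟨Z, hZ⟩ := hA.matrix Y
    have hEY : E * Y = 0 := by
      funext i j
      have : E *ᵥ ((1 - E) *ᵥ z m) = 0 := by
        rw [Matrix.mulVec_mulVec, Matrix.mul_sub, Matrix.mul_one, hE, sub_self, Matrix.zero_mulVec]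
      exact congrFun this i
    let g : Matrix n n A := Y * Z
    have hgg : g * g = g := by
      simp only [g]
      rw [← Matrix.mul_assoc, hZ]
    have hEg : E * g = 0 := by
      simp only [g]
      rw [← Matrix.mul_assoc, hEY, Matrix.zero_mul]
    have hgY : g *ᵥ ((1 - E) *ᵥ z m) = (1 - E) *ᵥ z m := by
      have : g * Y = Y := hZ
      funext i
      exact congrFun (congrFun this i) ()
    refine ⟨E + g * (1 - E), ?_, ?_, ?_, ?_, ?_⟩
    · calc (E + g * (1 - E)) * (E + g * (1 - E))
          = E * E + (E * g) * (1 - E) + g * (E - E * E) +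
            (g * g - g * (E * g)) * (1 - E) := by noncomm_ring
        _ = E + g * (1 - E) := by rw [hE, hEg, hgg]; noncomm_ring
    · intro u hu0
      have h1 : u ᵥ* Y = 0 := by
        funext i
        change u ⬝ᵥ ((1 - E) *ᵥ z m) = 0
        rw [Matrix.dotProduct_mulVec, Matrix.vecMul_sub, Matrix.vecMul_one, hw u hu0, sub_zero,
          hu0 m]
      simp only [g]
      rw [Matrix.vecMul_add, hw u hu0, ← Matrix.vecMul_vecMul, ← Matrix.vecMul_vecMul, h1,
        Matrix.zero_vecMul, Matrix.zero_vecMul, add_zero]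
    · calc E * (E + g * (1 - E)) = E * E + (E * g) * (1 - E) := by noncomm_ring
        _ = E := by rw [hE, hEg, Matrix.zero_mul, add_zero]
    · calc (E + g * (1 - E)) * E = E * E + g * (E - E * E) := by noncomm_ring
        _ = E := by rw [hE, sub_self, Matrix.mul_zero, add_zero]
    · rw [Matrix.add_mulVec, ← Matrix.mulVec_mulVec, hgY, ← Matrix.add_mulVec]
      have : E + (1 - E) = 1 := by abel
      rw [this, Matrix.one_mulVec]
  choose! S hS1 hS2 hS3 hS4 hS5 using step
  let E : ∀ m : ℕ, {E : Matrix n n A // E * E = E ∧ ∀ u, (∀ i, u ⬝ᵥ z i = 0) → u ᵥ* E = 0} :=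
    fun m => Nat.rec ⟨0, by simp, by simp⟩
      (fun m E => ⟨S m E.1, hS1 m E.1 E.2.1 E.2.2, hS2 m E.1 E.2.1 E.2.2⟩) m
  exact ⟨fun m => (E m).1, rfl, fun m => (E m).2.1,
    fun m => hS3 m (E m).1 (E m).2.1 (E m).2.2, fun m => hS4 m (E m).1 (E m).2.1 (E m).2.2,
    fun m => hS5 m (E m).1 (E m).2.1 (E m).2.2, fun w hw m => (E m).2.2 w hw⟩

theorem chain_mul {R : Type u} [Ring R] (E : ℕ → R) (h0 : ∀ m, E m * E m = E m)
    (h1 : ∀ m, E m * E (m + 1) = E m) (h2 : ∀ m, E (m + 1) * E m = E m) :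
    ∀ a b, a ≤ b → E a * E b = E a ∧ E b * E a = E a := by
  intro a b hab
  induction b, hab using Nat.le_induction with
  | base => exact ⟨h0 a, h0 a⟩
  | succ b _ ih =>
    constructor
    · rw [← ih.1, mul_assoc, h1, ih.1]
    · rw [← ih.2, ← mul_assoc, h2, ih.2]

/-- necessary condition: countable separation -/
theorem countSep_of_PF (h : PF A⟦X⟧) : CountSep A := by
  intro n _ _ t z htz
  have hA := regular_of_PF h
  obtain ⟨E, hEz, hE0, hE1, hE2, hEt, hEw⟩ := row_chain hA t
  obtain ⟨G, hGz0, hG0, hG1, hG2, hGz, hGu⟩ := col_chain hA z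
  have hE := chain_mul E hE0 hE1 hE2
  have hG := chain_mul G hG0 hG1 hG2
  have hEG : ∀ a b, E a * G b = 0 := by
    intro a b
    funext i
    refine hGu _ (fun j => ?_) b
    have h1 : E a *ᵥ z j = 0 := hEw (z j) (fun i => htz i j) a
    exact congrFun h1 i
  let F' : Matrix n n A⟦X⟧ := Matrix.of fun i j => PowerSeries.mk fun m => (E (m + 1) - E m) i j
  let G' : Matrix n n A⟦X⟧ := Matrix.of fun i j => PowerSeries.mk fun m => (G (m + 1) - G m) i j
  have hF' : ∀ m, cm m F' = E (m + 1) - E m := by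
    intro m
    ext i j
    simp [cm, F']
  have hG' : ∀ m, cm m G' = G (m + 1) - G m := by
    intro m
    ext i j
    simp [cm, G']
  have hFG : F' * G' = 0 := by
    apply cm_ext
    intro m
    rw [cm_mul]
    have h0 : cm m (0 : Matrix n n A⟦X⟧) = 0 := by
      ext i j
      simp [cm]
    rw [h0]
    refine Finset.sum_eq_zero fun p _ => ?_
    rw [hF', hG', Matrix.sub_mul, Matrix.mul_sub, Matrix.mul_sub, hEG, hEG, hEG, hEG]
    simp
  obtain ⟨H, hH1, hH2⟩ := h.mat F' G' hFG
  -- orthogonality of the differences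
  have horth : ∀ (K : ℕ → Matrix n n A), (∀ a b, a ≤ b → K a * K b = K a ∧ K b * K a = K a) →
      ∀ a b, b < a → (K (a + 1) - K a) * (K (b + 1) - K b) = 0 ∧
        (K (b + 1) - K b) * (K (a + 1) - K a) = 0 := by
    intro K hK a b hab
    constructor
    · rw [Matrix.sub_mul, Matrix.mul_sub, Matrix.mul_sub, (hK (b + 1) (a + 1) (by omega)).2,
        (hK b (a + 1) (by omega)).2, (hK (b + 1) a (by omega)).2, (hK b a (by omega)).2]
      simp
    · rw [Matrix.sub_mul, Matrix.mul_sub, Matrix.mul_sub, (hK (b + 1) (a + 1) (by omega)).1,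
        (hK b (a + 1) (by omega)).1, (hK (b + 1) a (by omega)).1, (hK b a (by omega)).1]
      simp
  have hidem : ∀ (K : ℕ → Matrix n n A), (∀ a b, a ≤ b → K a * K b = K a ∧ K b * K a = K a) →
      ∀ a, (K (a + 1) - K a) * (K (a + 1) - K a) = K (a + 1) - K a := by
    intro K hK a
    rw [Matrix.sub_mul, Matrix.mul_sub, Matrix.mul_sub, (hK (a + 1) (a + 1) le_rfl).1,
        (hK a (a + 1) (by omega)).2, (hK a (a + 1) (by omega)).1, (hK a a le_rfl).1]
    simp
  have hf : ∀ m, (E (m + 1) - E m) * cm 0 H = E (m + 1) - E m := by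
    intro m
    have h1 := congrArg (cm m) hH2
    rw [cm_mul, hF'] at h1
    have h2 := congrArg (fun Z => (E (m + 1) - E m) * Z) h1
    beta_reduce at h2
    rw [hidem E hE, Matrix.mul_sum, Finset.sum_eq_single (m, 0)] at h2
    · rw [hF', ← Matrix.mul_assoc, hidem E hE] at h2
      exact h2
    · rintro ⟨a, b⟩ hab hne
      rw [Finset.HasAntidiagonal.mem_antidiagonal] at hab
      simp only at hab
      have hlt : a < m := by
        rcases Nat.lt_or_ge a m with h | h
        · exact h
        · exfalso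
          apply hne
          rw [Prod.mk.injEq]
          omega
      rw [hF', ← Matrix.mul_assoc, (horth E hE m a hlt).1, Matrix.zero_mul]
    · intro h3
      exact absurd (Finset.HasAntidiagonal.mem_antidiagonal.2 (by simp)) h3
  have hg : ∀ m, cm 0 H * (G (m + 1) - G m) = 0 := by
    intro m
    have h1 := congrArg (cm m) hH1
    have h0 : cm m (0 : Matrix n n A⟦X⟧) = 0 := by
      ext i j
      simp [cm]
    rw [cm_mul, h0] at h1
    have h2 := congrArg (fun Z => Z * (G (m + 1) - G m)) h1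
    simp only [Matrix.zero_mul] at h2
    rw [Matrix.sum_mul, Finset.sum_eq_single (0, m)] at h2
    · rw [hG', Matrix.mul_assoc, hidem G hG] at h2
      exact h2
    · rintro ⟨a, b⟩ hab hne
      rw [Finset.HasAntidiagonal.mem_antidiagonal] at hab
      simp only at hab
      have hlt : b < m := by
        rcases Nat.lt_or_ge b m with h | h
        · exact h
        · exfalso
          apply hne
          rw [Prod.mk.injEq]
          omega
      rw [hG', Matrix.mul_assoc, (horth G hG m b hlt).2, Matrix.mul_zero]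
    · intro h3
      exact absurd (Finset.HasAntidiagonal.mem_antidiagonal.2 (by simp)) h3
  -- telescoping
  have hEc : ∀ m, E m * (1 - cm 0 H) = 0 := by
    intro m
    induction m with
    | zero => rw [hEz, Matrix.zero_mul]
    | succ m ih =>
      have h1 : E (m + 1) = (E (m + 1) - E m) + E m := by abel
      rw [h1, Matrix.add_mul, ih, Matrix.mul_sub, Matrix.mul_one, hf, sub_self, add_zero]
  have hGc : ∀ m, cm 0 H * G m = 0 := by
    intro m
    induction m with
    | zero => rw [hGz0, Matrix.mul_zero]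
    | succ m ih =>
      have h1 : G (m + 1) = (G (m + 1) - G m) + G m := by abel
      rw [h1, Matrix.mul_add, ih, hg, add_zero]
  refine ⟨1 - cm 0 H, fun i => ?_, fun j => ?_⟩
  · rw [← hEt i, Matrix.vecMul_vecMul, hEc, Matrix.vecMul_zero]
  · rw [Matrix.sub_mulVec, Matrix.one_mulVec]
    have h1 : cm 0 H *ᵥ z j = 0 := by
      rw [← hGz j, Matrix.mulVec_mulVec, hGc, Matrix.zero_mulVec]
    rw [h1, sub_zero]

end

end Pool.Agent.TH33.WGL
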