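import Mathlib
import Pool.Agent.TH33.WGL.Nec

/-!
# Rings without uncountable direct sums of right ideals
-/

set_option autoImplicit false

namespace Pool.Agent.TH33.WGL

open Matrix MulOpposite

universe u

/-- transfinite sequences of length `ω₁` -/
theorem exists_seq {X : Type u} (P : Set X → X → Prop)
    (h : ∀ C : Set X, C.Countable → ∃ x, P C x) :
    ∃ (W : Type u) (_ : LinearOrder W) (_ : WellFoundedLT W) (f : W → X), ¬ Countable W ∧
      ∀ w, P (f '' Set.Iio w) (f w) := by
  classical
  obtain ⟨x0, -⟩ := h ∅ Set.countable_empty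
  have : Nonempty X := ⟨x0⟩
  let W := (Cardinal.aleph.{u} 1).ord.ToType
  have hcard : Cardinal.mk W = Cardinal.aleph 1 := Cardinal.mk_ord_toType _
  have hW : ¬ Countable W := by
    intro hc
    have := Cardinal.mk_le_aleph0_iff.2 hc
    rw [hcard] at this
    exact absurd this (not_le.2 Cardinal.aleph0_lt_aleph_one)
  have hI : ∀ w : W, (Set.Iio w).Countable := by
    intro w
    have h1 : Cardinal.mk (Set.Iio w) < Cardinal.aleph 1 := by
      have := Cardinal.mk_Iio_lt w (by simp [W])
      rwa [hcard] at this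
    exact Set.countable_coe_iff.1 (Cardinal.mk_le_aleph0_iff.1 (Cardinal.lt_aleph_one_iff.1 h1))
  let F : (w : W) → ((y : W) → y < w → X) → X := fun w g =>
    Classical.epsilon (fun x => P {z | ∃ (y : W) (hy : y < w), z = g y hy} x)
  let f : W → X := WellFoundedLT.fix F
  refine ⟨W, inferInstance, inferInstance, f, hW, fun w => ?_⟩
  have h1 : f w = F w (fun y _ => f y) := WellFoundedLT.fix_eq F w
  have h2 : {z | ∃ (y : W) (_ : y < w), z = f y} = f '' Set.Iio w := by
    ext z
    simp only [Set.mem_ofPred_eq, exists_prop, Set.mem_image, Set.mem_Iio]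
    exact ⟨fun ⟨y, h1, h2⟩ => ⟨y, h1, h2.symm⟩, fun ⟨y, h1, h2⟩ => ⟨y, h1, h2.symm⟩⟩
  rw [h1]
  simp only [F]
  rw [h2]
  exact Classical.epsilon_spec (h _ ((hI w).image f))

section
variable {R : Type u} [Ring R] {M : Type u} [AddCommGroup M] [Module R M]

/-- independent family of elements (their cyclic submodules form a direct sum) -/
def Indep (R : Type u) [Ring R] {M : Type u} [AddCommGroup M] [Module R M] {ι : Type u}
    (y : ι → M) : Prop :=
  ∀ w : ι →₀ R, Finsupp.linearCombination R y w = 0 → ∀ i, w i • y i = 0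

theorem indep_iff {ι : Type u} (y : ι → M) : Indep R y ↔
    ∀ (s : Finset ι) (a : ι → R), ∑ i ∈ s, a i • y i = 0 → ∀ i ∈ s, a i • y i = 0 := by
  classical
  constructor
  · intro h s a hs i hi
    have h1 := h (∑ j ∈ s, Finsupp.single j (a j)) (by
      rw [map_sum]
      simpa using hs) i
    have h2 : (∑ j ∈ s, Finsupp.single j (a j)) i = a i := by
      rw [Finsupp.finsetSum_apply, Finset.sum_eq_single i]
      · simp
      · intro b _ hb
        simp [hb]
      · intro h
        exact absurd hi h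
    rwa [h2] at h1
  · intro h w hw i
    by_cases hi : i ∈ w.support
    · exact h w.support w hw i hi
    · rw [Finsupp.notMem_support_iff.1 hi, zero_smul]

/-- submodules without uncountable direct sums -/
def CCCon (R : Type u) [Ring R] {M : Type u} [AddCommGroup M] [Module R M]
    (P : Submodule R M) : Prop :=
  ∀ (ι : Type u) (y : ι → M), (∀ i, y i ∈ P) → (∀ i, y i ≠ 0) → Indep R y → Countable ι

theorem CCCon.mono {P Q : Submodule R M} (h : CCCon R P) (hQ : Q ≤ P) : CCCon R Q :=
  fun ι y h1 h2 h3 => h ι y (fun i => hQ (h1 i)) h2 h3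

theorem CCCon.ext {N : Type u} [AddCommGroup N] [Module R N] (f : M →ₗ[R] N)
    (hN : CCCon R (⊤ : Submodule R N)) (P : Submodule R M)
    (hK : CCCon R (P ⊓ LinearMap.ker f)) : CCCon R P := by
  classical
  intro ι y hyP hy0 hy
  let Q : Set ι → Prop := fun J => ∀ w : ι →₀ R, (∀ i ∈ w.support, i ∈ J) →
    f (Finsupp.linearCombination R y w) = 0 → Finsupp.linearCombination R y w = 0
  obtain ⟨J, hJ⟩ := zorn_subset {J | Q J} (by
    intro c hc hchain
    rcases c.eq_empty_or_nonempty with rfl | hne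
    · refine ⟨∅, ?_, by simp⟩
      intro w hw _
      have : w = 0 := by
        rw [← Finsupp.support_eq_empty, Finset.eq_empty_iff_forall_notMem]
        exact fun i hi => hw i hi
      rw [this, map_zero]
    · refine ⟨⋃₀ c, ?_, fun s hs => Set.subset_sUnion_of_mem hs⟩
      intro w hw hfw
      have h1 : ∀ s : Finset ι, (∀ i ∈ s, i ∈ ⋃₀ c) → ∃ K ∈ c, ∀ i ∈ s, i ∈ K := by
        intro s
        induction s using Finset.induction_on with
        | empty =>
          intro _
          obtain ⟨K, hK⟩ := hne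
          exact ⟨K, hK, by simp⟩
        | insert k s _ ih =>
          intro hs
          obtain ⟨K, hK, hK2⟩ := ih fun i hi => hs i (Finset.mem_insert_of_mem hi)
          obtain ⟨L, hL, hL2⟩ := hs k (Finset.mem_insert_self _ _)
          rcases hchain.total hK hL with h | h
          · refine ⟨L, hL, fun i hi => ?_⟩
            rcases Finset.mem_insert.1 hi with rfl | hi
            · exact hL2
            · exact h (hK2 i hi)
          · refine ⟨K, hK, fun i hi => ?_⟩
            rcases Finset.mem_insert.1 hi with rfl | hi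
            · exact h hL2
            · exact hK2 i hi
      obtain ⟨K, hKc, hK⟩ := h1 w.support hw
      exact hc hKc w hK hfw)
  have hJQ : Q J := hJ.prop
  -- `J` is countable
  have hJc : Countable J := by
    refine hN J (fun j => f (y j)) (fun _ => trivial) ?_ ?_
    · intro j hj
      have := hJQ (Finsupp.single (j : ι) 1) (by
        intro i hi
        have h2 := Finsupp.support_single_subset hi
        rw [Finset.mem_singleton] at h2
        rw [h2]
        exact j.2) (by simpa using hj)
      rw [Finsupp.linearCombination_single, one_smul] at this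
      exact hy0 _ this
    · intro w hw j
      let w' : ι →₀ R := w.embDomain (Function.Embedding.subtype _)
      have h1 : Finsupp.linearCombination R y w' =
          Finsupp.linearCombination R (fun j : J => y j) w := by
        rw [Finsupp.linearCombination_embDomain]
        rfl
      have h2 : f (Finsupp.linearCombination R y w') = 0 := by
        rw [h1, Finsupp.apply_linearCombination]
        exact hw
      have h3 : ∀ i ∈ w'.support, i ∈ J := by
        intro i hi
        rw [Finsupp.support_embDomain, Finset.mem_map] at hi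
        obtain ⟨j, -, rfl⟩ := hi
        exact j.2
      have h4 := hy w' (hJQ w' h3 h2) j
      have h5 : w' (j : ι) = w j := Finsupp.embDomain_apply_self (Function.Embedding.subtype _) w j
      rw [h5] at h4
      change w j • f (y j) = 0
      rw [← map_smul, h4, map_zero]
  -- the complement of `J` is countable
  have hmax : ∀ k : {i // i ∉ J}, ∃ w : ι →₀ R, (∀ i ∈ w.support, i ∈ insert (k : ι) J) ∧
      f (Finsupp.linearCombination R y w) = 0 ∧ Finsupp.linearCombination R y w ≠ 0 := by
    rintro ⟨k, hk⟩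
    by_contra hcon
    push Not at hcon
    have h1 : Q (insert k J) := fun w h2 h3 => hcon w h2 h3
    have h2 := hJ.le_of_ge h1 (Set.subset_insert k J)
    exact hk (h2 (Set.mem_insert k J))
  choose b hb1 hb2 hb3 using hmax
  have hKc : Countable {i // i ∉ J} := by
    refine hK {i // i ∉ J} (fun k => Finsupp.linearCombination R y (b k)) ?_ hb3 ?_
    · intro k
      refine ⟨?_, hb2 k⟩
      change Finsupp.linearCombination R y (b k) ∈ P
      rw [Finsupp.linearCombination_apply, Finsupp.sum]
      exact Submodule.sum_mem _ fun i _ => P.smul_mem _ (hyP i)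
    · rw [indep_iff]
      intro T c hT k0 hk0
      let w : ι →₀ R := ∑ k ∈ T, c k • b k
      have hw : Finsupp.linearCombination R y w = 0 := by
        simp only [w]
        rw [map_sum]
        simpa using hT
      have h1 := hy w hw k0
      have h2 : w k0 = c k0 * b k0 k0 := by
        simp only [w]
        rw [Finsupp.finsetSum_apply, Finset.sum_eq_single k0]
        · simp
        · intro k _ hk
          have : b k k0 = 0 := by
            by_contra hne
            rcases hb1 k k0 (Finsupp.mem_support_iff.2 hne) with h | h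
            · exact hk (Subtype.ext h.symm)
            · exact k0.2 h
          simp [this]
        · intro h
          exact absurd hk0 h
      rw [h2] at h1
      have h3 : c k0 • b k0 = Finsupp.single (k0 : ι) (c k0 * b k0 k0) +
          (c k0 • b k0).erase (k0 : ι) := by
        exact (Finsupp.single_add_erase (k0 : ι) (c k0 • b k0)).symm
      have h4 : c k0 • Finsupp.linearCombination R y (b k0) =
          Finsupp.linearCombination R y ((c k0 • b k0).erase (k0 : ι)) := by
        rw [← map_smul]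
        nth_rewrite 1 [h3]
        rw [map_add, Finsupp.linearCombination_single, h1, zero_add]
      rw [h4]
      refine hJQ _ ?_ ?_
      · intro i hi
        rw [Finsupp.support_erase, Finset.mem_erase] at hi
        have h5 : i ∈ (b k0).support := Finsupp.support_smul hi.2
        rcases hb1 k0 i h5 with h | h
        · exact absurd h hi.1
        · exact h
      · rw [← h4, map_smul, hb2, smul_zero]
  have h1 : (J ∪ Jᶜ : Set ι) = Set.univ := Set.union_compl_self J
  have h2 : (J ∪ Jᶜ).Countable := by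
    refine Set.Countable.union (Set.countable_coe_iff.1 hJc) (Set.countable_coe_iff.1 ?_)
    exact hKc
  rw [h1] at h2
  exact Set.countable_univ_iff.1 h2

theorem CCCon.pi (h : CCCon R (⊤ : Submodule R M)) (n : Type) [Fintype n] [DecidableEq n] :
    CCCon R (⊤ : Submodule R (n → M)) := by
  have key : ∀ S : Finset n, CCCon R (Submodule.pi ((S : Set n)ᶜ) (fun _ => (⊥ : Submodule R M))) := by
    intro S
    induction S using Finset.induction_on with
    | empty =>
      intro ι y h1 h2 _
      have : IsEmpty ι := by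
        refine ⟨fun i => h2 i ?_⟩
        funext k
        exact (Submodule.mem_bot R).1 (h1 i k (by simp))
      infer_instance
    | insert k S _ ih =>
      refine CCCon.ext (LinearMap.proj k) h _ (ih.mono ?_)
      rintro v ⟨h1, h2⟩ j hj
      by_cases hjk : j = k
      · rw [hjk]
        exact (Submodule.mem_bot R).2 h2
      · exact h1 j (by
          simp only [Finset.coe_insert, Set.mem_compl_iff, Set.mem_insert_iff, not_or]
          exact ⟨hjk, hj⟩)
  refine (key Finset.univ).mono ?_
  intro v _ j hj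
  simp at hj

end

/-- `A` has no uncountable direct sum of nonzero right ideals (equivalently: of nonzero principal
right ideals). -/
def RightCCC (A : Type u) [Ring A] : Prop :=
  ∀ (ι : Type u) (y : ι → A), (∀ i, y i ≠ 0) →
    (∀ (s : Finset ι) (a : ι → A), ∑ i ∈ s, y i * a i = 0 → ∀ i ∈ s, y i * a i = 0) → Countable ι

/-- `A` has no uncountable direct sum of nonzero left ideals. -/
def LeftCCC (A : Type u) [Ring A] : Prop :=
  ∀ (ι : Type u) (y : ι → A), (∀ i, y i ≠ 0) →
    (∀ (s : Finset ι) (a : ι → A), ∑ i ∈ s, a i * y i = 0 → ∀ i ∈ s, a i * y i = 0) → Countable ι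

section
variable {A : Type u} [Ring A]

theorem RightCCC.on (h : RightCCC A) : CCCon Aᵐᵒᵖ (⊤ : Submodule Aᵐᵒᵖ A) := by
  intro ι y _ h2 h3
  rw [indep_iff] at h3
  refine h ι y h2 fun s a hs i hi => ?_
  exact h3 s (fun i => op (a i)) hs i hi

/-- every set of rows has a countable subset with the same annihilator -/
theorem step_one (hA : IsRegularRing A) {n : Type} [Fintype n] [DecidableEq n]
    (hc : CCCon Aᵐᵒᵖ (⊤ : Submodule Aᵐᵒᵖ (n → A))) (U : Set (n → A)) :
    ∃ T ⊆ U, T.Countable ∧ ∀ y : n → A, (∀ t ∈ T, t ⬝ᵥ y = 0) → ∀ u ∈ U, u ⬝ᵥ y = 0 := by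
  by_contra hcon
  push Not at hcon
  let X := {p : (n → A) × (n → A) // p.1 ∈ U ∧ p.2 ≠ 0 ∧
    ∀ a : A, (p.1 ⬝ᵥ p.2) * a = 0 → op a • p.2 = 0}
  obtain ⟨W, _, _, f, hW, hf⟩ := exists_seq (X := X) (fun C p => ∀ q ∈ C, q.1.1 ⬝ᵥ p.1.2 = 0) (by
    intro C hC
    obtain ⟨y, h1, u, hu, h2⟩ := hcon ((fun q : X => q.1.1) '' C) (by
      rintro _ ⟨q, -, rfl⟩
      exact q.2.1) (hC.image _)
    obtain ⟨b, hb⟩ := hA (u ⬝ᵥ y)
    have h3 : u ⬝ᵥ (op (b * (u ⬝ᵥ y)) • y) = u ⬝ᵥ y := by
      rw [dotProduct_smul, op_smul_eq_mul, ← mul_assoc, hb]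
    refine ⟨⟨(u, op (b * (u ⬝ᵥ y)) • y), hu, ?_, ?_⟩, ?_⟩
    · intro h4
      simp only at h4
      rw [h4, dotProduct_zero] at h3
      exact h2 h3.symm
    · intro a ha
      simp only at ha ⊢
      rw [h3] at ha
      rw [smul_smul, ← op_mul, mul_assoc, ha, mul_zero, op_zero, zero_smul]
    · intro q hq
      simp only
      rw [dotProduct_smul, h1 _ ⟨q, hq, rfl⟩, smul_zero])
  refine hW (hc W (fun w => (f w).1.2) (fun _ => trivial) (fun w => (f w).2.2.1) ?_)
  rw [indep_iff]
  intro s a hs
  classical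
  by_contra hcon2
  push Not at hcon2
  -- the smallest index with nonzero term
  have hne : (s.filter fun w => a w • (f w).1.2 ≠ 0).Nonempty := by
    obtain ⟨i, hi, h1⟩ := hcon2
    exact ⟨i, Finset.mem_filter.2 ⟨hi, h1⟩⟩
  let w0 := (s.filter fun w => a w • (f w).1.2 ≠ 0).min' hne
  have hw0 := Finset.mem_filter.1 ((s.filter fun w => a w • (f w).1.2 ≠ 0).min'_mem hne)
  have h1 : (f w0).1.1 ⬝ᵥ ∑ i ∈ s, a i • (f i).1.2 = 0 := by
    rw [hs, dotProduct_zero]
  rw [dotProduct_sum, Finset.sum_eq_single w0] at h1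
  · rw [dotProduct_smul] at h1
    apply hw0.2
    have h2 := (f w0).2.2.2 (unop (a w0)) (by
      rw [← op_smul_eq_mul, op_unop]
      exact h1)
    rwa [op_unop] at h2
  · intro w hw hne2
    rcases lt_or_gt_of_ne hne2 with h | h
    · have : a w • (f w).1.2 = 0 := by
        by_contra h3
        have h4 := (s.filter fun w => a w • (f w).1.2 ≠ 0).min'_le w
          (Finset.mem_filter.2 ⟨hw, h3⟩)
        exact absurd h (not_lt.2 h4)
      rw [this, dotProduct_zero]
    · rw [dotProduct_smul, hf w (f w0) ⟨w0, h, rfl⟩, smul_zero]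
  · intro h
    exact absurd hw0.1 h

/-- a set of columns closed under the operations has a countable dense subset -/
theorem step_two {n : Type} [Fintype n] [DecidableEq n]
    (hc : CCCon Aᵐᵒᵖ (⊤ : Submodule Aᵐᵒᵖ (n → A))) (N : Set (n → A)) :
    ∃ C ⊆ N, C.Countable ∧ ∀ c : Matrix n n A, (∀ z ∈ C, c *ᵥ z = z) → ∀ x ∈ N, c *ᵥ x = 0 →
      x = 0 := by
  by_contra hcon
  push Not at hcon
  let X := {p : (n → A) × Matrix n n A // p.1 ∈ N ∧ p.1 ≠ 0 ∧ p.2 *ᵥ p.1 = 0}
  obtain ⟨W, _, _, f, hW, hf⟩ := exists_seq (X := X) (fun C p => ∀ q ∈ C, p.1.2 *ᵥ q.1.1 = q.1.1)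
    (by
    intro C hC
    obtain ⟨c, h1, x, hx, h2, h3⟩ := hcon ((fun q : X => q.1.1) '' C) (by
      rintro _ ⟨q, -, rfl⟩
      exact q.2.1) (hC.image _)
    exact ⟨⟨(x, c), hx, h3, h2⟩, fun q hq => h1 _ ⟨q, hq, rfl⟩⟩)
  refine hW (hc W (fun w => (f w).1.1) (fun _ => trivial) (fun w => (f w).2.2.1) ?_)
  rw [indep_iff]
  intro s
  induction s using Finset.induction_on_max with
  | empty => simp
  | insert w0 s hlt ih =>
    intro a hs
    have hw0 : w0 ∉ s := fun h => lt_irrefl _ (hlt w0 h)
    rw [Finset.sum_insert hw0] at hs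
    have h1 : (f w0).1.2 *ᵥ (a w0 • (f w0).1.1 + ∑ i ∈ s, a i • (f i).1.1) = 0 := by
      rw [hs, mulVec_zero]
    have h2 : (f w0).1.2 *ᵥ (∑ i ∈ s, a i • (f i).1.1) = ∑ i ∈ s, a i • (f i).1.1 := by
      rw [mulVec_sum]
      refine Finset.sum_congr rfl fun i hi => ?_
      rw [mulVec_smul, hf w0 (f i) ⟨i, hlt i hi, rfl⟩]
    rw [mulVec_add, mulVec_smul, (f w0).2.2.2, smul_zero, zero_add, h2] at h1
    rw [h1, add_zero] at hs
    intro i hi
    rcases Finset.mem_insert.1 hi with rfl | hi
    · exact hs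
    · exact ih a h1 i hi

theorem exists_enum {X : Type u} (x0 : X) (C : Set X) (hC : C.Countable) :
    ∃ t : ℕ → X, (∀ i, t i = x0 ∨ t i ∈ C) ∧ ∀ x ∈ C, ∃ i, t i = x := by
  obtain ⟨t, ht⟩ := (hC.insert x0).exists_eq_range ⟨x0, Set.mem_insert _ _⟩
  refine ⟨t, fun i => ?_, fun x hx => ?_⟩
  · have : t i ∈ insert x0 C := by
      rw [ht]
      exact ⟨i, rfl⟩
    exact this
  · have : x ∈ insert x0 C := Set.mem_insert_of_mem _ hx
    rw [ht] at this
    exact this

theorem BaerRow_of_CCC (hA : IsRegularRing A) (hcs : CountSep A) (hccc : RightCCC A) (n : Type)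
    [Fintype n] [DecidableEq n] : BaerRow A n := by
  have hc := hccc.on.pi n
  intro U
  obtain ⟨T, hTU, hTc, hT⟩ := step_one hA hc U
  obtain ⟨C, hCN, hCc, hC⟩ := step_two hc {y | ∀ u ∈ U, u ⬝ᵥ y = 0}
  obtain ⟨t, ht1, ht2⟩ := exists_enum 0 T hTc
  obtain ⟨z, hz1, hz2⟩ := exists_enum 0 C hCc
  obtain ⟨c, hc1, hc2⟩ := hcs n t z (by
    intro i j
    rcases ht1 i with h1 | h1
    · rw [h1, zero_dotProduct]
    · rcases hz1 j with h2 | h2
      · rw [h2, dotProduct_zero]
      · exact hCN h2 _ (hTU h1))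
  have hcC : ∀ x ∈ C, c *ᵥ x = x := by
    intro x hx
    obtain ⟨j, rfl⟩ := hz2 x hx
    exact hc2 j
  have hcN : ∀ w, ∀ u ∈ U, u ⬝ᵥ (c *ᵥ w) = 0 := by
    intro w
    refine hT _ fun x hx => ?_
    obtain ⟨i, rfl⟩ := ht2 x hx
    rw [dotProduct_mulVec, hc1, zero_dotProduct]
  obtain ⟨b, hb⟩ := hA.matrix (1 - c)
  let c' : Matrix n n A := 1 - b * (1 - c)
  have hc'C : ∀ x ∈ C, c' *ᵥ x = x := by
    intro x hx
    simp only [c']
    rw [sub_mulVec, one_mulVec, ← mulVec_mulVec, sub_mulVec, one_mulVec, hcC x hx, sub_self,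
      mulVec_zero, sub_zero]
  have hcc' : (1 - c) * c' = 0 := by
    simp only [c']
    rw [Matrix.mul_sub, Matrix.mul_one, ← Matrix.mul_assoc, hb, sub_self]
  have hc'N : ∀ w, ∀ u ∈ U, u ⬝ᵥ (c' *ᵥ w) = 0 := by
    intro w
    have h1 : c' *ᵥ w = c *ᵥ (c' *ᵥ w) := by
      have h2 : (1 - c) *ᵥ (c' *ᵥ w) = 0 := by
        rw [mulVec_mulVec, hcc', zero_mulVec]
      rw [sub_mulVec, one_mulVec, sub_eq_zero] at h2
      exact h2
    rw [h1]
    exact hcN _
  have hidem : c' * c' = c' := by
    have h1 : c' * c' = c' - b * ((1 - c) * c') := by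
      nth_rewrite 1 [show c' = 1 - b * (1 - c) from rfl]
      rw [Matrix.sub_mul, Matrix.one_mul, Matrix.mul_assoc]
    rw [h1, hcc', Matrix.mul_zero, sub_zero]
  refine ⟨c', hidem, fun w => ⟨fun hw => ?_, fun hw => ?_⟩⟩
  · have h1 : ∀ u ∈ U, u ⬝ᵥ (w - c' *ᵥ w) = 0 := by
      intro u hu
      rw [dotProduct_sub, hw u hu, hc'N w u hu, sub_zero]
    have h2 : c' *ᵥ (w - c' *ᵥ w) = 0 := by
      rw [mulVec_sub, mulVec_mulVec, hidem, sub_self]
    have h3 := hC c' hc'C _ h1 h2
    rw [sub_eq_zero] at h3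
    exact h3.symm
  · rw [← hw]
    exact hc'N w

end

end Pool.Agent.TH33.WGL
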