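import Mathlib
import Pool.Agent.TH33.WGL.CCC

/-!
# Passage to the opposite ring, products, and countable rings
-/

set_option autoImplicit false

namespace Pool.Agent.TH33.WGL

open Matrix MulOpposite PowerSeries

universe u v

section
variable {A : Type u} [Ring A]

theorem IsRegularRing.op (h : IsRegularRing A) : IsRegularRing Aᵐᵒᵖ := by
  intro a
  obtain ⟨b, hb⟩ := h a.unop
  refine ⟨MulOpposite.op b, ?_⟩
  apply unop_injective
  simp only [unop_mul, unop_op]
  rw [← mul_assoc]
  exact hb

theorem CountSep.op (h : CountSep A) : CountSep Aᵐᵒᵖ := by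
  intro n _ _ t z htz
  obtain ⟨c, h1, h2⟩ := h n (fun i k => (z i k).unop) (fun i k => (t i k).unop) (by
    intro i j
    have := congrArg unop (htz j i)
    simpa [dotProduct] using this)
  refine ⟨Matrix.of fun k l => MulOpposite.op ((1 - c) l k), ?_, ?_⟩
  · intro i
    funext k
    have h3 : (1 - c) *ᵥ (fun k => (t i k).unop) = 0 := by
      rw [sub_mulVec, one_mulVec, h2, sub_self]
    apply unop_injective
    have h4 := congrFun h3 k
    simp only [mulVec, dotProduct, Pi.zero_apply] at h4
    simp only [vecMul, dotProduct, Matrix.of_apply, Finset.unop_sum, unop_mul, unop_op, Pi.zero_apply,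
      unop_zero]
    exact h4
  · intro j
    funext k
    have h3 : (fun k => (z j k).unop) ᵥ* (1 - c) = fun k => (z j k).unop := by
      rw [vecMul_sub, vecMul_one, h1, sub_zero]
    apply unop_injective
    have h4 := congrFun h3 k
    simp only [vecMul, dotProduct] at h4
    simp only [mulVec, dotProduct, Matrix.of_apply, Finset.unop_sum, unop_mul, unop_op]
    exact h4

theorem LeftCCC.op (h : LeftCCC A) : RightCCC Aᵐᵒᵖ := by
  intro ι y h1 h2
  refine h ι (fun i => (y i).unop) (fun i h3 => h1 i (unop_injective h3)) ?_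
  intro s a h3 i hi
  have h4 := h2 s (fun i => MulOpposite.op (a i)) (by
    apply unop_injective
    simp only [Finset.unop_sum, unop_mul, unop_op, unop_zero]
    exact h3) i hi
  have h5 := congrArg unop h4
  simpa using h5

theorem BaerRow.of_op {n : Type} [Fintype n] [DecidableEq n] (h : BaerRow Aᵐᵒᵖ n) :
    BaerRow A n := by
  intro U
  obtain ⟨e, he, h1⟩ := h {v | ∀ u ∈ U, u ⬝ᵥ (fun k => (v k).unop) = 0}
  let e' : Matrix n n A := Matrix.of fun k l => (e l k).unop
  have hdot : ∀ a b : n → Aᵐᵒᵖ, (a ⬝ᵥ b).unop = (fun k => (b k).unop) ⬝ᵥ (fun k => (a k).unop) := by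
    intro a b
    simp [dotProduct]
  have he' : e' * e' = e' := by
    ext k l
    have := congrArg unop (congrFun (congrFun he l) k)
    rw [Matrix.mul_apply] at this
    rw [Matrix.mul_apply]
    simpa [e'] using this
  have h2 : ∀ w : n → A, (∀ v : n → A, (∀ u ∈ U, u ⬝ᵥ v = 0) → w ⬝ᵥ v = 0) ↔ w ᵥ* e' = w := by
    intro w
    have h3 := h1 (fun k => MulOpposite.op (w k))
    have h4 : (∀ v : n → A, (∀ u ∈ U, u ⬝ᵥ v = 0) → w ⬝ᵥ v = 0) ↔
        ∀ v ∈ {v : n → Aᵐᵒᵖ | ∀ u ∈ U, u ⬝ᵥ (fun k => (v k).unop) = 0},
          v ⬝ᵥ (fun k => MulOpposite.op (w k)) = 0 := by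
      constructor
      · intro h5 v hv
        apply unop_injective
        rw [hdot]
        exact h5 _ hv
      · intro h5 v hv
        have := congrArg unop (h5 (fun k => MulOpposite.op (v k)) hv)
        rw [hdot] at this
        exact this
    rw [h4, h3]
    constructor
    · intro h5
      funext k
      have := congrArg unop (congrFun h5 k)
      simpa [mulVec, vecMul, dotProduct, e'] using this
    · intro h5
      funext k
      apply unop_injective
      have := congrFun h5 k
      simpa [mulVec, vecMul, dotProduct, e'] using this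
  refine ⟨1 - e', ?_, ?_⟩
  · rw [Matrix.sub_mul, Matrix.one_mul, Matrix.mul_sub, Matrix.mul_one, he', sub_self, sub_zero]
  · intro w
    have h5 : (∀ u ∈ U, u ⬝ᵥ w = 0) ↔ e' *ᵥ w = 0 := by
      constructor
      · intro h6
        funext k
        have h7 : (e' k) ᵥ* e' = e' k := congrFun he' k
        exact (h2 (e' k)).2 h7 w h6
      · intro h6 u hu
        have h7 := (h2 u).1 (fun v hv => hv u hu)
        rw [← h7, ← dotProduct_mulVec, h6, dotProduct_zero]
    rw [h5, sub_mulVec, one_mulVec]
    constructor
    · intro h6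
      rw [h6, sub_zero]
    · intro h6
      have : w - e' *ᵥ w - w = 0 := by rw [h6, sub_self]
      have h7 : - (e' *ᵥ w) = 0 := by
        rw [← this]
        abel
      exact neg_eq_zero.1 h7

theorem BaerRow_of_CCC' (hA : IsRegularRing A) (hcs : CountSep A)
    (hccc : RightCCC A ∨ LeftCCC A) (n : Type) [Fintype n] [DecidableEq n] : BaerRow A n := by
  rcases hccc with h | h
  · exact BaerRow_of_CCC hA hcs h n
  · exact (BaerRow_of_CCC hA.op hcs.op h.op n).of_op

/-- products -/
theorem BaerRow_pi {I : Type v} (B : I → Type u) [∀ i, Ring (B i)] (e : A ≃+* (∀ i, B i))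
    (hA : IsRegularRing A) (hcs : CountSep A) (hB : ∀ i, RightCCC (B i) ∨ LeftCCC (B i))
    (n : Type) [Fintype n] [DecidableEq n] : BaerRow A n := by
  classical
  let p : ∀ i, A →+* B i := fun i => (Pi.evalRingHom B i).comp e.toRingHom
  have hp : ∀ (i : I) (b : B i), ∃ a : A, p i a = b ∧ ∀ j, j ≠ i → p j a = 0 := by
    intro i b
    refine ⟨e.symm (Pi.single i b), ?_, ?_⟩
    · change e (e.symm (Pi.single i b)) i = b
      rw [e.apply_symm_apply, Pi.single_eq_same]
    · intro j hj
      change e (e.symm (Pi.single i b)) j = 0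
      rw [e.apply_symm_apply, Pi.single_eq_of_ne hj]
  have hinj : ∀ a b : A, (∀ i, p i a = p i b) → a = b := by
    intro a b h
    exact e.injective (funext h)
  have hreg : ∀ i, IsRegularRing (B i) := by
    intro i b
    obtain ⟨a, rfl, -⟩ := hp i b
    obtain ⟨c, hc⟩ := hA a
    exact ⟨p i c, by rw [← map_mul, ← map_mul, hc]⟩
  have hdot : ∀ (i : I) (u w : n → A), (fun k => p i (u k)) ⬝ᵥ (fun k => p i (w k)) =
      p i (u ⬝ᵥ w) := by
    intro i u w
    simp [dotProduct]
  have hcs' : ∀ i, CountSep (B i) := by
    intro i m _ _ t z htz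
    choose s hs1 hs2 using hp i
    obtain ⟨c, h1, h2⟩ := hcs m (fun j k => s (t j k)) (fun j k => s (z j k)) (by
      intro j l
      apply hinj
      intro i'
      rw [map_zero, dotProduct, map_sum]
      simp only [map_mul]
      by_cases h : i' = i
      · subst h
        simp only [hs1]
        exact htz j l
      · simp [hs2 _ i' h])
    refine ⟨Matrix.of fun k l => p i (c k l), ?_, ?_⟩
    · intro j
      funext k
      have := congrArg (p i) (congrFun (h1 j) k)
      simpa [vecMul, dotProduct, hs1] using this
    · intro j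
      funext k
      have := congrArg (p i) (congrFun (h2 j) k)
      simpa [mulVec, dotProduct, hs1] using this
  have hbr : ∀ i, BaerRow (B i) n := fun i => BaerRow_of_CCC' (hreg i) (hcs' i) (hB i) n
  intro U
  choose f hf1 hf2 using fun i => hbr i ((fun u : n → A => fun k => p i (u k)) '' U)
  let F : Matrix n n A := Matrix.of fun k l => e.symm (fun i => f i k l)
  have hF : ∀ i k l, p i (F k l) = f i k l := by
    intro i k l
    change e (e.symm (fun i => f i k l)) i = f i k l
    rw [e.apply_symm_apply]
  refine ⟨F, ?_, ?_⟩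
  · ext k l
    apply hinj
    intro i
    rw [Matrix.mul_apply, map_sum]
    simp only [map_mul, hF]
    exact congrFun (congrFun (hf1 i) k) l
  · intro w
    constructor
    · intro h1
      funext k
      apply hinj
      intro i
      have h2 := (hf2 i (fun k => p i (w k))).1 (by
        rintro _ ⟨u, hu, rfl⟩
        simp only
        rw [hdot, h1 u hu, map_zero])
      rw [← congrFun h2 k]
      simp [mulVec, dotProduct, hF]
    · intro h1 u hu
      apply hinj
      intro i
      have h2 := (hf2 i (fun k => p i (w k))).2 (by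
        funext k
        have := congrArg (p i) (congrFun h1 k)
        simpa [mulVec, dotProduct, hF] using this) _ ⟨u, hu, rfl⟩
      simp only at h2
      rw [hdot] at h2
      rw [h2, map_zero]

end

end Pool.Agent.TH33.WGL
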