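import Mathlib
import Pool.Agent.TH33.WGL.Sym

/-!
# Countable rings
-/

set_option autoImplicit false

namespace Pool.Agent.TH33.WGL

open Matrix PowerSeries

universe u

section
variable {A : Type u} [Ring A]

theorem rightCCC_of_countable [Countable A] : RightCCC A := by
  classical
  intro ι y h1 h2
  have hinj : Function.Injective y := by
    intro i j hij
    by_contra hne
    have h3 := h2 {i, j} (fun k => if k = i then 1 else -1) (by
      rw [Finset.sum_pair hne]
      simp [Ne.symm hne, hij]) i (by simp)
    simp only [if_true, mul_one] at h3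
    exact h1 i h3
  exact hinj.countable

theorem semisimple_left_ideal [IsSemisimpleRing A] (I : Submodule A A) :
    ∃ e : A, e * e = e ∧ ∀ x, x ∈ I ↔ x * e = x := by
  obtain ⟨J, hJ⟩ := exists_isCompl I
  have h1 : (1 : A) ∈ I ⊔ J := by
    rw [hJ.sup_eq_top]
    trivial
  obtain ⟨e, he, f, hf, hef⟩ := Submodule.mem_sup.1 h1
  have h0 : ∀ x, x ∈ I → x ∈ J → x = 0 := by
    intro x hx1 hx2
    have : x ∈ I ⊓ J := ⟨hx1, hx2⟩
    rw [hJ.inf_eq_bot] at this
    exact (Submodule.mem_bot A).1 this
  have key : ∀ x, x ∈ I → x * e = x := by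
    intro x hx
    have h2 : x = x * e + x * f := by rw [← mul_add, hef, mul_one]
    have h3 : x - x * e = x * f := by
      nth_rewrite 1 [h2]
      abel
    have h4 : x - x * e = 0 := h0 _ (I.sub_mem hx (I.smul_mem x he)) (by
      rw [h3]
      exact J.smul_mem x hf)
    exact (sub_eq_zero.1 h4).symm
  refine ⟨e, key e he, fun x => ⟨key x, fun h => ?_⟩⟩
  rw [← h]
  exact I.smul_mem x he

theorem regular_of_semisimple [IsSemisimpleRing A] : IsRegularRing A := by
  intro a
  obtain ⟨e, he, h⟩ := semisimple_left_ideal (Submodule.span A {a})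
  have h1 := (h a).1 (Submodule.mem_span_singleton_self a)
  have h2 : e ∈ Submodule.span A {a} := (h e).2 he
  obtain ⟨b, hb⟩ := Submodule.mem_span_singleton.1 h2
  refine ⟨b, ?_⟩
  rw [mul_assoc]
  rw [smul_eq_mul] at hb
  rw [hb, h1]

theorem baer_of_semisimple (R : Type u) [Ring R] [IsSemisimpleRing R] : IsBaerRing R := by
  intro S
  obtain ⟨e, he, h⟩ := semisimple_left_ideal (Submodule.span R S)
  refine ⟨1 - e, ?_, fun x => ⟨fun hx => ?_, fun hx => ?_⟩⟩
  · rw [sub_mul, one_mul, mul_sub, mul_one, he, sub_self, sub_zero]
  · have h1 : ∀ y ∈ Submodule.span R S, y * x = 0 := by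
      intro y hy
      induction hy using Submodule.span_induction with
      | mem y hy => exact hx y hy
      | zero => exact zero_mul x
      | add a b _ _ ha hb => rw [add_mul, ha, hb, add_zero]
      | smul a b _ hb => rw [smul_eq_mul, mul_assoc, hb, mul_zero]
    rw [sub_mul, one_mul, h1 e ((h e).2 he), sub_zero]
  · intro s hs
    have h1 := (h s).1 (Submodule.subset_span hs)
    have h2 : e * x = 0 := by
      rw [sub_mul, one_mul] at hx
      have : e * x = x - (x - e * x) := by abel
      rw [this, hx, sub_self]
    rw [← h1, mul_assoc, h2, mul_zero]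

theorem isCompl_idem (I : Submodule A A) (e : A) (he : e * e = e) (heI : e ∈ I)
    (h : ∀ x ∈ I, x * e = x) : IsCompl I (Submodule.span A {1 - e}) := by
  rw [isCompl_iff, disjoint_iff, codisjoint_iff]
  constructor
  · rw [eq_bot_iff]
    rintro x ⟨h1, h2⟩
    obtain ⟨b, rfl⟩ := Submodule.mem_span_singleton.1 h2
    have h3 := h _ h1
    rw [smul_eq_mul, mul_assoc, sub_mul, one_mul, he, sub_self, mul_zero] at h3
    rw [Submodule.mem_bot, smul_eq_mul, ← h3]
  · rw [eq_top_iff]
    intro x _
    have : x = x * e + x * (1 - e) := by noncomm_ring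
    rw [this]
    exact Submodule.add_mem_sup (I.smul_mem x heI)
      (Submodule.smul_mem _ x (Submodule.mem_span_singleton_self _))

/-- a regular ring with the Baer property and countably many elements is semisimple -/
theorem semisimple_of_countable [Countable A] (hA : IsRegularRing A) (hB : IsBaerRing A) :
    IsSemisimpleRing A := by
  classical
  -- every left ideal is generated by an idempotent
  have key : ∀ I : Submodule A A, ∃ e : A, e * e = e ∧ e ∈ I ∧ ∀ x ∈ I, x * e = x := by
    intro I
    by_contra hcon
    push Not at hcon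
    have step : ∀ g : A, g * g = g → g ∈ I → ∃ g' : A, (g' * g' = g' ∧ g' ∈ I) ∧
        g * g' = g ∧ g' * g = g ∧ g' ≠ g := by
      intro g hg hgI
      obtain ⟨x, hx, hxg⟩ := hcon g hg hgI
      obtain ⟨b, hb⟩ := hA (x * (1 - g))
      let f := b * (x * (1 - g))
      have hxI : x * (1 - g) ∈ I := by
        rw [mul_sub, mul_one]
        exact I.sub_mem hx (I.smul_mem x hgI)
      have hfI : f ∈ I := I.smul_mem b hxI
      have hff : f * f = f := by
        simp only [f]
        rw [mul_assoc b, ← mul_assoc (x * (1 - g)) b, hb]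
      have h1g : (1 - g) * g = 0 := by rw [sub_mul, one_mul, hg, sub_self]
      have hfg : f * g = 0 := by
        simp only [f]
        rw [mul_assoc, mul_assoc, h1g, mul_zero, mul_zero]
      have hf0 : f ≠ 0 := by
        intro h
        simp only [f] at h
        rw [mul_assoc, h, mul_zero, mul_sub, mul_one] at hb
        exact hxg (sub_eq_zero.1 hb.symm).symm
      refine ⟨g + (1 - g) * f, ⟨?_, ?_⟩, ?_, ?_, ?_⟩
      · calc (g + (1 - g) * f) * (g + (1 - g) * f)
            = g * g + (g - g * g) * f + (1 - g) * (f * g) + (1 - g) * (f * f - (f * g) * f) := by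
              noncomm_ring
          _ = g + (1 - g) * f := by
              rw [hg, hfg, hff]
              noncomm_ring
      · refine I.add_mem hgI ?_
        exact I.smul_mem (1 - g) hfI
      · calc g * (g + (1 - g) * f) = g * g + (g - g * g) * f := by noncomm_ring
          _ = g := by rw [hg, sub_self, zero_mul, add_zero]
      · calc (g + (1 - g) * f) * g = g * g + (1 - g) * (f * g) := by noncomm_ring
          _ = g := by rw [hg, hfg, mul_zero, add_zero]
      · intro h
        have h2 : (1 - g) * f = 0 := by
          have : (1 - g) * f = g + (1 - g) * f - g := by abel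
          rw [this, h, sub_self]
        apply hf0
        calc f = f * f - (f * g) * f := by rw [hff, hfg, zero_mul, sub_zero]
          _ = f * ((1 - g) * f) := by noncomm_ring
          _ = 0 := by rw [h2, mul_zero]
    choose! S hS1 hS2 hS3 hS4 using step
    let G : ∀ _ : ℕ, {g : A // g * g = g ∧ g ∈ I} := fun m =>
      Nat.rec ⟨0, by simp, I.zero_mem⟩ (fun _ g => ⟨S g.1, hS1 g.1 g.2.1 g.2.2⟩) m
    have hchain := chain_mul (fun m => (G m).1) (fun m => (G m).2.1)
      (fun m => hS2 (G m).1 (G m).2.1 (G m).2.2) (fun m => hS3 (G m).1 (G m).2.1 (G m).2.2)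
    have hne : ∀ m, (G (m + 1)).1 ≠ (G m).1 := fun m => hS4 (G m).1 (G m).2.1 (G m).2.2
    let e : ℕ → A := fun m => (G (m + 1)).1 - (G m).1
    have he0 : ∀ m, e m ≠ 0 := fun m h => hne m (sub_eq_zero.1 h)
    have hee : ∀ m, e m * e m = e m := by
      intro m
      simp only [e]
      have h1 := hchain m (m + 1) (by omega)
      have h2 := hchain m m le_rfl
      have h3 := hchain (m + 1) (m + 1) le_rfl
      beta_reduce at h1 h2 h3
      rw [sub_mul, mul_sub, mul_sub, h3.1, h1.2, h1.1, h2.1]
      simp
    have horth : ∀ a b, a ≠ b → e a * e b = 0 := by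
      have h : ∀ a b, a < b → e a * e b = 0 ∧ e b * e a = 0 := by
        intro a b hab
        have h1 := hchain (a + 1) (b + 1) (by omega)
        have h2 := hchain (a + 1) b (by omega)
        have h3 := hchain a (b + 1) (by omega)
        have h4 := hchain a b (by omega)
        beta_reduce at h1 h2 h3 h4
        simp only [e]
        constructor
        · rw [sub_mul, mul_sub, mul_sub, h1.1, h2.1, h3.1, h4.1]
          simp
        · rw [sub_mul, mul_sub, mul_sub, h1.2, h2.2, h3.2, h4.2]
          simp
      intro a b hab
      rcases lt_or_gt_of_ne hab with h1 | h1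
      · exact (h a b h1).1
      · exact (h b a h1).2
    choose c hc1 hc2 using fun T : Set ℕ => hB (e '' T)
    have hmem : ∀ (T : Set ℕ) (j : ℕ), c T * e j = e j ↔ j ∉ T := by
      intro T j
      rw [← hc2 T (e j), Set.forall_mem_image]
      constructor
      · intro h hj
        have := h hj
        rw [hee] at this
        exact he0 j this
      · intro hj i hi
        exact horth i j (by
          rintro rfl
          exact hj hi)
    have hinj : Function.Injective c := by
      intro T T' hTT
      ext j
      have h1 := hmem T j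
      have h2 := hmem T' j
      rw [hTT] at h1
      exact not_iff_not.1 (h1.symm.trans h2)
    have hcount : Countable (Set ℕ) := hinj.countable
    have h1 := Cardinal.mk_le_aleph0_iff.2 hcount
    rw [Cardinal.mk_set, Cardinal.mk_nat] at h1
    exact absurd h1 (not_le.2 (Cardinal.cantor _))
  have hcl : ComplementedLattice (Submodule A A) := ⟨fun I => by
    obtain ⟨e, he, heI, h⟩ := key I
    exact ⟨Submodule.span A {1 - e}, isCompl_idem I e he heI h⟩⟩
  exact (isSemisimpleModule_iff A A).2 hcl

end

end Pool.Agent.TH33.WGL
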